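import Pool.Agent.Helper72.CTS.Sound2

/-!
A truth assignment yields a solution of the instance.
-/

set_option linter.dupNamespace false

namespace Pool.Agent.Helper72.CTS

open Pool.Agent.PolyTime

/-- points near the upper left corner -/
def TL (N J : ℕ) (s t : ℕ → ℝ) : Set (ℝ × ℝ) :=
  {x | ∃ l < N, x = tp (QQ N J : ℝ) N l (s l) ∨ x = tq (QQ N J : ℝ) N l (t l)}

/-- points near the upper right corner -/
def TR (N J : ℕ) (L : List (ℕ × ℕ × ℕ)) (s : ℕ → ℝ) : Set (ℝ × ℝ) :=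
  {x | ∃ (k : ℕ) (e : ℕ × ℕ × ℕ), L[k]? = some e ∧
    (x = o1 (PP N J : ℝ) (QQ N J : ℝ) J k (s e.1) ∨ x = o2 (PP N J : ℝ) (QQ N J : ℝ) J k (s e.2.1) ∨
      x = md (PP N J : ℝ) (QQ N J : ℝ) J k (s e.2.2))}

/-- points on the four sides -/
def SD (N J : ℕ) : Set (ℝ × ℝ) :=
  {x | ((x.2 = 10 * (QQ N J : ℝ) ∨ x.2 = 0) ∧ (PP N J : ℝ) ≤ x.1 ∧ x.1 ≤ 9 * (PP N J : ℝ)) ∨
    ((x.1 = 0 ∨ x.1 = 10 * (PP N J : ℝ)) ∧ (QQ N J : ℝ) ≤ x.2 ∧ x.2 ≤ 9 * (QQ N J : ℝ))}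

/-- all points -/
def GG (N J : ℕ) (s t : ℕ → ℝ) (A B : List (ℕ × ℕ × ℕ)) : Set (ℝ × ℝ) :=
  {x | x ∈ SD N J ∨ x ∈ TL N J s t ∨ x ∈ TR N J A s ∨
    rho (PP N J : ℝ) (QQ N J : ℝ) x ∈ TL N J (fun i => 1 - s i) (fun i => 1 - t i) ∨
    rho (PP N J : ℝ) (QQ N J : ℝ) x ∈ TR N J B (fun i => 1 - s i)}

/-- admissible data -/
structure Good (N J : ℕ) (s t : ℕ → ℝ) (A : List (ℕ × ℕ × ℕ)) : Prop where
  lo : ∀ i, -(1 / 4) ≤ s i
  hi : ∀ i, s i ≤ 5 / 4
  st : ∀ l < N, (s l = 5 / 4 ∧ t l = -(1 / 4)) ∨ (s l = -(1 / 4) ∧ t l = 5 / 4)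
  len : A.length ≤ J
  zone : ∀ e ∈ A, s e.1 + s e.2.1 ≤ 2 * (3 / 4 + s e.2.2)

section

variable {N J : ℕ} {s t : ℕ → ℝ} {A B : List (ℕ × ℕ × ℕ)}

theorem TL_corner (h : Good N J s t A) {x : ℝ × ℝ} (hx : x ∈ TL N J s t) :
    0 ≤ x.1 ∧ x.1 ≤ (PP N J : ℝ) ∧ 9 * (QQ N J : ℝ) ≤ x.2 ∧ x.2 ≤ 10 * (QQ N J : ℝ) := by
  obtain ⟨l, hl, hx⟩ := hx
  have h1 : (l : ℝ) + 1 ≤ (N : ℝ) := by exact_mod_cast hl
  have h2 : (0 : ℝ) ≤ (l : ℝ) := Nat.cast_nonneg l
  have h3 := h.lo l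
  have h4 := h.hi l
  have h5 := wt_pos N l
  have h6 := wt_mono N hl.le
  have h7 : (0 : ℝ) ≤ ((J : ℝ) + 1) ^ 2 := by positivity
  rcases hx with rfl | rfl
  · simp only [tp, PP_eq, QQ_eq]
    refine ⟨by linarith, by linarith, by linarith, by linarith⟩
  · simp only [tq, PP_eq, QQ_eq]
    rcases h.st l hl with ⟨_, h8⟩ | ⟨_, h8⟩
    · rw [h8]
      refine ⟨by linarith, by linarith, by linarith, by linarith⟩
    · rw [h8]
      refine ⟨by linarith, by linarith, by linarith, by linarith⟩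

theorem TR_corner (h : Good N J s t A) {x : ℝ × ℝ} (hx : x ∈ TR N J A s) :
    9 * (PP N J : ℝ) ≤ x.1 ∧ x.1 ≤ 10 * (PP N J : ℝ) ∧ 9 * (QQ N J : ℝ) ≤ x.2 ∧
      x.2 ≤ 10 * (QQ N J : ℝ) := by
  obtain ⟨k, e, hk, hx⟩ := hx
  have hkl : k < A.length := by
    by_contra hcon
    rw [List.getElem?_eq_none (by omega)] at hk
    exact absurd hk (by simp)
  have h1 : (k : ℝ) + 1 ≤ (J : ℝ) := by
    have := h.len
    have : k + 1 ≤ J := by omega
    exact_mod_cast this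
  have h2 : (0 : ℝ) ≤ (k : ℝ) := Nat.cast_nonneg k
  have h3 : (0 : ℝ) ≤ (N : ℝ) := Nat.cast_nonneg N
  have h5 := wt_pos N N
  rcases hx with rfl | rfl | rfl
  · have e1 := h.lo e.1
    have e2 := h.hi e.1
    simp only [o1]
    refine ⟨by rw [PP_eq]; nlinarith, by nlinarith, by rw [QQ_eq]; nlinarith, by linarith⟩
  · have e1 := h.lo e.2.1
    have e2 := h.hi e.2.1
    simp only [o2]
    refine ⟨by rw [PP_eq]; nlinarith, by nlinarith, by rw [QQ_eq]; nlinarith, by linarith⟩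
  · have e1 := h.lo e.2.2
    have e2 := h.hi e.2.2
    simp only [md]
    refine ⟨by rw [PP_eq]; nlinarith, by nlinarith, by rw [QQ_eq]; nlinarith, by linarith⟩

/-- reflected data -/
theorem Good.mirror (h : Good N J s t A) (hB : B.length ≤ J)
    (hz : ∀ e ∈ B, (1 - s e.1) + (1 - s e.2.1) ≤ 2 * (3 / 4 + (1 - s e.2.2))) :
    Good N J (fun i => 1 - s i) (fun i => 1 - t i) B := by
  refine ⟨fun i => ?_, fun i => ?_, fun l hl => ?_, hB, hz⟩
  · have := h.hi i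
    linarith
  · have := h.lo i
    linarith
  · rcases h.st l hl with ⟨h1, h2⟩ | ⟨h1, h2⟩
    · right
      rw [h1, h2]
      norm_num
    · left
      rw [h1, h2]
      norm_num

theorem GG_region (h : Good N J s t A)
    (h' : Good N J (fun i => 1 - s i) (fun i => 1 - t i) B) {x : ℝ × ℝ} (hx : x ∈ GG N J s t A B) :
    (0 ≤ x.1 ∧ x.1 ≤ 10 * (PP N J : ℝ) ∧ 0 ≤ x.2 ∧ x.2 ≤ 10 * (QQ N J : ℝ)) ∧
    (x ∈ TL N J s t ∨ (PP N J : ℝ) ≤ x.1 ∨ x.2 ≤ 9 * (QQ N J : ℝ)) ∧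
    (x ∈ TR N J A s ∨ x.1 ≤ 9 * (PP N J : ℝ) ∨ x.2 ≤ 9 * (QQ N J : ℝ)) := by
  have hP := PP_pos N J
  have hQ := QQ_pos N J
  rcases hx with hx | hx | hx | hx | hx
  · rcases hx with ⟨h1 | h1, h2, h3⟩ | ⟨h1 | h1, h2, h3⟩
    · refine ⟨⟨by linarith, by linarith, by linarith, by linarith⟩, Or.inr (Or.inl h2),
        Or.inr (Or.inl h3)⟩
    · refine ⟨⟨by linarith, by linarith, by linarith, by linarith⟩, Or.inr (Or.inl h2),
        Or.inr (Or.inl h3)⟩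
    · refine ⟨⟨by linarith, by linarith, by linarith, by linarith⟩, Or.inr (Or.inr h3),
        Or.inr (Or.inr h3)⟩
    · refine ⟨⟨by linarith, by linarith, by linarith, by linarith⟩, Or.inr (Or.inr h3),
        Or.inr (Or.inr h3)⟩
  · obtain ⟨h1, h2, h3, h4⟩ := TL_corner h hx
    exact ⟨⟨h1, by linarith, by linarith, h4⟩, Or.inl hx, Or.inr (Or.inl (by linarith))⟩
  · obtain ⟨h1, h2, h3, h4⟩ := TR_corner h hx
    exact ⟨⟨by linarith, by linarith, by linarith, h4⟩, Or.inr (Or.inl (by linarith)), Or.inl hx⟩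
  · obtain ⟨h1, h2, h3, h4⟩ := TL_corner h' hx
    simp only [rho] at h1 h2 h3 h4
    exact ⟨⟨by linarith, by linarith, by linarith, by linarith⟩, Or.inr (Or.inl (by linarith)),
      Or.inr (Or.inr (by linarith))⟩
  · obtain ⟨h1, h2, h3, h4⟩ := TR_corner h' hx
    simp only [rho] at h1 h2 h3 h4
    exact ⟨⟨by linarith, by linarith, by linarith, by linarith⟩, Or.inr (Or.inr (by linarith)),
      Or.inr (Or.inr (by linarith))⟩

theorem supp_TL (h : Good N J s t A)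
    (h' : Good N J (fun i => 1 - s i) (fun i => 1 - t i) B) {p : ℝ × ℝ} (hp : p ∈ TL N J s t) :
    ∃ a b : ℝ, (a ≠ 0 ∨ b ≠ 0) ∧ ∀ q ∈ GG N J s t A B, a * q.1 + b * q.2 ≤ a * p.1 + b * p.2 := by
  obtain ⟨l, hl, hp⟩ := hp
  have hlN : (l : ℝ) + 1 ≤ (N : ℝ) := by exact_mod_cast hl
  have hl0 : (0 : ℝ) ≤ (l : ℝ) := Nat.cast_nonneg l
  have hN0 : (0 : ℝ) ≤ (N : ℝ) := Nat.cast_nonneg N
  have hw := wt_pos N l
  have hwN := wt_lt N hl le_rfl
  have hJ : (0 : ℝ) ≤ ((J : ℝ) + 1) ^ 2 := by positivity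
  -- the slope and the common value
  obtain ⟨m, hm1, hm2, K, hK1, hK2, hK3, hK4⟩ : ∃ m : ℝ, (wt N l : ℝ) / 5 ≤ m ∧
      m ≤ 5 * (wt N l : ℝ) ∧ ∃ K : ℝ,
      K = -m * (tp (QQ N J : ℝ) N l (s l)).1 + (tp (QQ N J : ℝ) N l (s l)).2 ∧
      K = -m * (tq (QQ N J : ℝ) N l (t l)).1 + (tq (QQ N J : ℝ) N l (t l)).2 ∧
      -m * (50 * ((N : ℝ) - (l : ℝ))) + 10 * (QQ N J : ℝ) - (33 / 4) * (wt N l : ℝ) ≤ K ∧
      K ≤ -m * p.1 + 1 * p.2 := by
    rcases h.st l hl with ⟨h1, h2⟩ | ⟨h1, h2⟩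
    · refine ⟨(wt N l : ℝ) / 5, le_rfl, by linarith,
        -((wt N l : ℝ) / 5) * (50 * ((N : ℝ) - (l : ℝ))) + 10 * (QQ N J : ℝ) -
          (33 / 4) * (wt N l : ℝ), ?_, ?_, le_rfl, ?_⟩
      · rw [h1]; simp only [tp]; ring
      · rw [h2]; simp only [tq]; ring
      · rcases hp with rfl | rfl
        · rw [h1]; simp only [tp]; apply le_of_eq; ring
        · rw [h2]; simp only [tq]; apply le_of_eq; ring
    · refine ⟨5 * (wt N l : ℝ), by linarith, le_rfl,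
        -(5 * (wt N l : ℝ)) * (50 * ((N : ℝ) - (l : ℝ))) + 10 * (QQ N J : ℝ) -
          (27 / 4) * (wt N l : ℝ), ?_, ?_, by linarith, ?_⟩
      · rw [h1]; simp only [tp]; ring
      · rw [h2]; simp only [tq]; ring
      · rcases hp with rfl | rfl
        · rw [h1]; simp only [tp]; apply le_of_eq; ring
        · rw [h2]; simp only [tq]; apply le_of_eq; ring
  have hm0 : 0 < m := by linarith
  have hX0 : 0 ≤ 50 * ((N : ℝ) - (l : ℝ)) := by linarith
  -- two easy regions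
  have regA : ∀ q : ℝ × ℝ, 50 * ((N : ℝ) - (l : ℝ)) + 50 - 1 / 4 ≤ q.1 → q.2 ≤ 10 * (QQ N J : ℝ) →
      -m * q.1 + 1 * q.2 ≤ K := by
    intro q h1 h2
    have h3 : m * (50 * ((N : ℝ) - (l : ℝ)) + 50 - 1 / 4) ≤ m * q.1 :=
      mul_le_mul_of_nonneg_left h1 hm0.le
    nlinarith
  have regB : ∀ q : ℝ × ℝ, 0 ≤ q.1 →
      q.2 ≤ 10 * (QQ N J : ℝ) - 1000 * ((N : ℝ) + 1) * (wt N l : ℝ) →
      -m * q.1 + 1 * q.2 ≤ K := by
    intro q h1 h2
    have h3 : 0 ≤ m * q.1 := mul_nonneg hm0.le h1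
    have h4 : m * (50 * ((N : ℝ) - (l : ℝ))) ≤ 5 * (wt N l : ℝ) * (50 * ((N : ℝ) - (l : ℝ))) :=
      mul_le_mul_of_nonneg_right hm2 hX0
    have h5 : 5 * (wt N l : ℝ) * (50 * ((N : ℝ) - (l : ℝ))) ≤
        5 * (wt N l : ℝ) * (50 * ((N : ℝ))) :=
      mul_le_mul_of_nonneg_left (by linarith) (by linarith)
    have h6 : 0 ≤ (N : ℝ) * (wt N l : ℝ) := mul_nonneg hN0 hw.le
    linarith
  refine ⟨-m, 1, Or.inr one_ne_zero, fun q hq => le_trans ?_ hK4⟩
  obtain ⟨hbox, hr, -⟩ := GG_region h h' hq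
  rcases hr with hr | hr | hr
  · obtain ⟨i, hi, hr⟩ := hr
    have hi1 : (i : ℝ) + 1 ≤ (N : ℝ) := by exact_mod_cast hi
    have hslo := h.lo i
    have hshi := h.hi i
    rcases lt_trichotomy i l with hil | hil | hil
    · have hil' : (i : ℝ) + 1 ≤ (l : ℝ) := by exact_mod_cast hil
      refine regA q ?_ hbox.2.2.2
      rcases hr with rfl | rfl
      · simp only [tp]; linarith
      · simp only [tq]; linarith
    · subst hil
      rcases hr with rfl | rfl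
      · rw [hK1]; simp
      · rw [hK2]; simp
    · have h1 := wt_lt N hil hi.le
      have h2 := wt_pos N i
      refine regB q hbox.1 ?_
      rcases hr with rfl | rfl
      · simp only [tp]; linarith
      · simp only [tq]
        rcases h.st i hi with ⟨_, h3⟩ | ⟨_, h3⟩
        · rw [h3]; linarith
        · rw [h3]; linarith
  · refine regA q ?_ hbox.2.2.2
    rw [PP_eq] at hr
    nlinarith
  · refine regB q hbox.1 ?_
    have : (QQ N J : ℝ) = 10 * (wt N N : ℝ) + 1000 * ((J : ℝ) + 1) ^ 2 := QQ_eq N J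
    have := wt_pos N N
    linarith

/-- comparison of different zones -/
theorem zone_ineq {d κ η ξ : ℝ} (hd : 1 ≤ d ∨ d ≤ -1) (h1 : -(5 / 2) ≤ κ) (h2 : κ ≤ 5 / 2)
    (h3 : -1 ≤ η) (h4 : η ≤ 1) (h5 : ξ ≤ 2) :
    -100 * d ^ 2 + 20 * κ * d + (κ - 10 * d) * η + ξ ≤ 1 / 2 := by
  have hκη : κ * η ≤ 5 / 2 := by
    nlinarith [mul_nonneg (sub_nonneg.2 h2) (sub_nonneg.2 h4),
      mul_nonneg (sub_nonneg.2 h1) (sub_nonneg.2 h3),
      mul_nonneg (sub_nonneg.2 h2) (sub_nonneg.2 h3),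
      mul_nonneg (sub_nonneg.2 h1) (sub_nonneg.2 h4)]
  rcases hd with hd | hd
  · have e1 : κ * d ≤ 5 / 2 * d := mul_le_mul_of_nonneg_right h2 (by linarith)
    have e2 : -d ≤ d * η := by nlinarith
    nlinarith
  · have e1 : κ * d ≤ 5 / 2 * (-d) := by nlinarith
    have e2 : d ≤ d * η := by nlinarith
    nlinarith

theorem supp_TR (h : Good N J s t A)
    (h' : Good N J (fun i => 1 - s i) (fun i => 1 - t i) B) {p : ℝ × ℝ} (hp : p ∈ TR N J A s) :
    ∃ a b : ℝ, (a ≠ 0 ∨ b ≠ 0) ∧ ∀ q ∈ GG N J s t A B, a * q.1 + b * q.2 ≤ a * p.1 + b * p.2 := by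
  obtain ⟨k, e, hk, hp⟩ := hp
  have hkl : k < A.length := by
    by_contra hcon
    rw [List.getElem?_eq_none (by omega)] at hk
    exact absurd hk (by simp)
  have heA : e ∈ A := List.mem_of_getElem? hk
  have hkJ : (k : ℝ) + 1 ≤ (J : ℝ) := by
    have := h.len
    have : k + 1 ≤ J := by omega
    exact_mod_cast this
  have hk0 : (0 : ℝ) ≤ (k : ℝ) := Nat.cast_nonneg k
  have hN0 : (0 : ℝ) ≤ (N : ℝ) := Nat.cast_nonneg N
  have hw := wt_pos N N
  have hz := h.zone e heA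
  have s1 := h.lo e.1
  have s2 := h.hi e.1
  have s3 := h.lo e.2.1
  have s4 := h.hi e.2.1
  have s5 := h.lo e.2.2
  have s6 := h.hi e.2.2
  -- the slope
  obtain ⟨κ, hκ1, hκ2, γ, hγ, g1, g2, g3, hval⟩ : ∃ κ : ℝ, -(5 / 2) ≤ κ ∧ κ ≤ 5 / 2 ∧ ∃ γ : ℝ,
      1 / 2 ≤ γ ∧ s e.1 - κ ≤ γ ∧ s e.2.1 + κ ≤ γ ∧ 3 / 4 + s e.2.2 ≤ γ ∧
      1 * p.1 + (10 * ((k : ℝ) + 1) + κ) * p.2 =
        10 * (PP N J : ℝ) - 2 - 100 * ((k : ℝ) + 1) ^ 2 +
          (10 * ((k : ℝ) + 1) + κ) * (10 * (QQ N J : ℝ) - 20 * ((J : ℝ) - (k : ℝ))) + γ := by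
    rcases hp with rfl | rfl | rfl
    · refine ⟨-(5 / 2), le_rfl, by norm_num, s e.1 + 5 / 2, by linarith, by linarith, by linarith,
        by linarith, ?_⟩
      simp only [o1]; ring
    · refine ⟨5 / 2, by norm_num, le_rfl, s e.2.1 + 5 / 2, by linarith, by linarith, by linarith,
        by linarith, ?_⟩
      simp only [o2]; ring
    · refine ⟨(s e.1 - s e.2.1) / 2, by linarith, by linarith, 3 / 4 + s e.2.2, by linarith,
        by linarith, by linarith, le_rfl, ?_⟩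
      simp only [md]; ring
  have hν1 : 15 / 2 ≤ 10 * ((k : ℝ) + 1) + κ := by linarith
  have hν2 : 10 * ((k : ℝ) + 1) + κ ≤ 10 * (J : ℝ) + 5 / 2 := by linarith
  refine ⟨1, 10 * ((k : ℝ) + 1) + κ, Or.inl one_ne_zero, fun q hq => ?_⟩
  rw [hval]
  obtain ⟨hbox, -, hr⟩ := GG_region h h' hq
  rcases hr with hr | hr | hr
  · obtain ⟨i, f, hi, hr⟩ := hr
    have f1 := h.lo f.1
    have f2 := h.hi f.1
    have f3 := h.lo f.2.1
    have f4 := h.hi f.2.1
    have f5 := h.lo f.2.2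
    have f6 := h.hi f.2.2
    rcases eq_or_ne i k with hik | hik
    · subst hik
      have hfe : f = e := by
        rw [hi] at hk
        exact Option.some.inj hk
      subst hfe
      rcases hr with rfl | rfl | rfl
      · simp only [o1]; linarith
      · simp only [o2]; linarith
      · simp only [md]; linarith
    · have hd : 1 ≤ (i : ℝ) - (k : ℝ) ∨ (i : ℝ) - (k : ℝ) ≤ -1 := by
        rcases lt_or_gt_of_ne hik with h1 | h1
        · right
          have : (i : ℝ) + 1 ≤ (k : ℝ) := by exact_mod_cast h1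
          linarith
        · left
          have : (k : ℝ) + 1 ≤ (i : ℝ) := by exact_mod_cast h1
          linarith
      rcases hr with rfl | rfl | rfl
      · have := zone_ineq (η := -1) (ξ := s f.1) hd hκ1 hκ2 (by norm_num) (by norm_num)
          (by linarith)
        simp only [o1]
        nlinarith
      · have := zone_ineq (η := 1) (ξ := s f.2.1) hd hκ1 hκ2 (by norm_num) (by norm_num)
          (by linarith)
        simp only [o2]
        nlinarith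
      · have := zone_ineq (η := 0) (ξ := 3 / 4 + s f.2.2) hd hκ1 hκ2 (by norm_num) (by norm_num)
          (by linarith)
        simp only [md]
        nlinarith
  · have hq2 := hbox.2.2.2
    have hP := PP_eq N J
    have e1 : (10 * ((k : ℝ) + 1) + κ) * q.2 ≤ (10 * ((k : ℝ) + 1) + κ) * (10 * (QQ N J : ℝ)) :=
      mul_le_mul_of_nonneg_left hq2 (by linarith)
    have e2 : (10 * ((k : ℝ) + 1) + κ) * (20 * ((J : ℝ) - (k : ℝ))) ≤
        (10 * (J : ℝ) + 5 / 2) * (20 * (J : ℝ)) :=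
      mul_le_mul hν2 (by linarith) (by linarith) (by linarith)
    have e3 : ((k : ℝ) + 1) ^ 2 ≤ (J : ℝ) ^ 2 := by nlinarith
    nlinarith
  · have hQ := QQ_eq N J
    have e1 : (10 * ((k : ℝ) + 1) + κ) * q.2 ≤ (10 * ((k : ℝ) + 1) + κ) * (9 * (QQ N J : ℝ)) :=
      mul_le_mul_of_nonneg_left hr (by linarith)
    have e3 : ((k : ℝ) + 1) ^ 2 ≤ (J : ℝ) ^ 2 := by nlinarith
    have e4 : 0 ≤ (QQ N J : ℝ) - 20 * ((J : ℝ) - (k : ℝ)) - 100 * (J : ℝ) ^ 2 - 2 := by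
      rw [hQ]
      nlinarith
    have e5 : 15 / 2 * ((QQ N J : ℝ) - 20 * ((J : ℝ) - (k : ℝ))) ≤
        (10 * ((k : ℝ) + 1) + κ) * ((QQ N J : ℝ) - 20 * ((J : ℝ) - (k : ℝ))) :=
      mul_le_mul_of_nonneg_right hν1 (by nlinarith)
    nlinarith [hbox.2.1]

theorem GG_mirror {x : ℝ × ℝ} (hx : x ∈ GG N J s t A B) :
    rho (PP N J : ℝ) (QQ N J : ℝ) x ∈ GG N J (fun i => 1 - s i) (fun i => 1 - t i) B A := by
  rcases hx with hx | hx | hx | hx | hx
  · left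
    rcases hx with ⟨h1 | h1, h2, h3⟩ | ⟨h1 | h1, h2, h3⟩
    · left
      refine ⟨Or.inr ?_, ?_, ?_⟩ <;> simp only [rho] <;> linarith
    · left
      refine ⟨Or.inl ?_, ?_, ?_⟩ <;> simp only [rho] <;> linarith
    · right
      refine ⟨Or.inr ?_, ?_, ?_⟩ <;> simp only [rho] <;> linarith
    · right
      refine ⟨Or.inl ?_, ?_, ?_⟩ <;> simp only [rho] <;> linarith
  · right; right; right; left
    rw [rho_rho]
    simpa using hx
  · right; right; right; right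
    rw [rho_rho]
    simpa using hx
  · right; left
    exact hx
  · right; right; left
    exact hx

theorem GG_SP (h : Good N J s t A)
    (h' : Good N J (fun i => 1 - s i) (fun i => 1 - t i) B) : SP (GG N J s t A B) := by
  have h'' : Good N J (fun i => 1 - (fun i => 1 - s i) i) (fun i => 1 - (fun i => 1 - t i) i) A := by
    simpa using h
  intro p hp
  rcases hp with hp | hp | hp | hp | hp
  · rcases hp with ⟨h1 | h1, h2, h3⟩ | ⟨h1 | h1, h2, h3⟩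
    · refine ⟨0, 1, Or.inr one_ne_zero, fun q hq => ?_⟩
      have := (GG_region h h' hq).1
      rw [h1]; linarith
    · refine ⟨0, -1, Or.inr (by norm_num), fun q hq => ?_⟩
      have := (GG_region h h' hq).1
      rw [h1]; linarith
    · refine ⟨-1, 0, Or.inl (by norm_num), fun q hq => ?_⟩
      have := (GG_region h h' hq).1
      rw [h1]; linarith
    · refine ⟨1, 0, Or.inl one_ne_zero, fun q hq => ?_⟩
      have := (GG_region h h' hq).1
      rw [h1]; linarith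
  · exact supp_TL h h' hp
  · exact supp_TR h h' hp
  · obtain ⟨a, b, hab, hle⟩ := supp_TL h' h'' hp
    refine ⟨-a, -b, by simpa using hab, fun q hq => ?_⟩
    have := hle _ (GG_mirror hq)
    simp only [rho] at this
    linarith
  · obtain ⟨a, b, hab, hle⟩ := supp_TR h' h'' hp
    refine ⟨-a, -b, by simpa using hab, fun q hq => ?_⟩
    have := hle _ (GG_mirror hq)
    simp only [rho] at this
    linarith

end

end Pool.Agent.Helper72.CTS
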