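import Pool.Agent.Helper72.CTS.Complete

/-!
A truth assignment yields a solution of the instance: assembly.
-/

set_option linter.dupNamespace false

namespace Pool.Agent.Helper72.CTS

open Pool.Agent.PolyTime

section

variable {N J : ℕ} {s t : ℕ → ℝ} {A B : List (ℕ × ℕ × ℕ)}

theorem sides_sub {x : ℝ × ℝ} (hx : x ∈ sides (PP N J : ℝ) (QQ N J : ℝ)) : x ∈ SD N J := by
  have hP := PP_pos N J
  have hQ := QQ_pos N J
  simp only [sides, List.mem_cons, List.not_mem_nil, or_false] at hx
  rcases hx with rfl | rfl | rfl | rfl | rfl | rfl | rfl | rfl | rfl | rfl | rfl | rfl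
  · exact Or.inl ⟨Or.inl rfl, by simp only; linarith, by simp only; linarith⟩
  · exact Or.inl ⟨Or.inl rfl, by simp only; linarith, by simp only; linarith⟩
  · exact Or.inl ⟨Or.inl rfl, by simp only; linarith, by simp only; linarith⟩
  · exact Or.inl ⟨Or.inr rfl, by simp only; linarith, by simp only; linarith⟩
  · exact Or.inl ⟨Or.inr rfl, by simp only; linarith, by simp only; linarith⟩
  · exact Or.inl ⟨Or.inr rfl, by simp only; linarith, by simp only; linarith⟩
  · exact Or.inr ⟨Or.inl rfl, by simp only; linarith, by simp only; linarith⟩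
  · exact Or.inr ⟨Or.inl rfl, by simp only; linarith, by simp only; linarith⟩
  · exact Or.inr ⟨Or.inl rfl, by simp only; linarith, by simp only; linarith⟩
  · exact Or.inr ⟨Or.inr rfl, by simp only; linarith, by simp only; linarith⟩
  · exact Or.inr ⟨Or.inr rfl, by simp only; linarith, by simp only; linarith⟩
  · exact Or.inr ⟨Or.inr rfl, by simp only; linarith, by simp only; linarith⟩

theorem zA_sub {L : List (ℕ × ℕ × ℕ)} {s : ℕ → ℝ} {i : ℕ} {x : ℝ × ℝ}
    (hx : x ∈ zA (PP N J : ℝ) (QQ N J : ℝ) J L i (s i)) : x ∈ TR N J L s := by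
  rw [mem_zA] at hx
  obtain ⟨k, e, hk, hx⟩ := hx
  refine ⟨k, e, hk, ?_⟩
  rcases hx with ⟨h1, h2⟩ | ⟨h1, h2⟩ | ⟨h1, h2⟩
  · left; rw [h1]; exact h2
  · right; left; rw [h1]; exact h2
  · right; right; rw [h1]; exact h2

theorem zB_sub {L : List (ℕ × ℕ × ℕ)} {s : ℕ → ℝ} {i : ℕ} {x : ℝ × ℝ}
    (hx : x ∈ zB (PP N J : ℝ) (QQ N J : ℝ) J L i (s i)) :
    rho (PP N J : ℝ) (QQ N J : ℝ) x ∈ TR N J L (fun i => 1 - s i) := by
  unfold zB at hx
  rw [List.mem_map] at hx
  obtain ⟨y, hy, rfl⟩ := hx
  rw [rho_rho]
  exact zA_sub (s := fun i => 1 - s i) hy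

/-- shifting the zone points -/
theorem zA_add {P Q : ℝ} {J : ℕ} {L : List (ℕ × ℕ × ℕ)} {l : ℕ} {c a : ℝ} {x : ℝ × ℝ}
    (hx : x ∈ zA P Q J L l c) : ((x.1 + a, x.2) : ℝ × ℝ) ∈ zA P Q J L l (c + a) := by
  have h : x = (((x.1 + a, x.2) : ℝ × ℝ).1 - a, ((x.1 + a, x.2) : ℝ × ℝ).2) := by
    ext <;> simp
  rw [mem_zA] at hx ⊢
  obtain ⟨k, e, hk, h⟩ := hx
  refine ⟨k, e, hk, ?_⟩
  rcases h with ⟨h1, h2⟩ | ⟨h1, h2⟩ | ⟨h1, h2⟩
  · left
    refine ⟨h1, ?_⟩
    rw [h2, o1, o1]
    ext <;> simp only
    ring
  · right; left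
    refine ⟨h1, ?_⟩
    rw [h2, o2, o2]
    ext <;> simp only
    ring
  · right; right
    refine ⟨h1, ?_⟩
    rw [h2, md, md]
    ext <;> simp only
    ring

theorem RR_sub (h0 : s N = 0) (h1 : s (N + 1) = 1) {x : ℝ × ℝ}
    (hx : x ∈ RR (PP N J : ℝ) (QQ N J : ℝ) N J A B) : x ∈ GG N J s t A B := by
  unfold RR at hx
  simp only [List.mem_append] at hx
  rcases hx with hx | hx | hx | hx | hx
  · left; exact sides_sub hx
  · right; right; left
    rw [← h0] at hx
    exact zA_sub hx
  · right; right; left
    rw [← h1] at hx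
    exact zA_sub hx
  · right; right; right; right
    rw [← h0] at hx
    exact zB_sub hx
  · right; right; right; right
    rw [← h1] at hx
    exact zB_sub hx

theorem HH_sub (h : Good N J s t A) {l : ℕ} (hl : l < N) {x : ℝ × ℝ}
    (hx : x ∈ HH (PP N J : ℝ) (QQ N J : ℝ) N J A B l) :
    ((x.1 + s l, x.2) : ℝ × ℝ) ∈ GG N J s t A B := by
  have hP : (50 : ℝ) < (PP N J : ℝ) := by
    rw [PP_eq]
    have : (0 : ℝ) ≤ (N : ℝ) := Nat.cast_nonneg N
    have : (0 : ℝ) < ((J : ℝ) + 1) ^ 2 := by positivity
    linarith
  have s1 := h.lo l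
  have s2 := h.hi l
  unfold HH at hx
  simp only [List.mem_append, List.mem_cons, List.not_mem_nil, or_false] at hx
  rcases hx with (rfl | rfl | rfl | rfl | rfl | rfl | rfl | rfl) | hx | hx
  · left; exact Or.inl ⟨Or.inl rfl, by simp only; linarith, by simp only; linarith⟩
  · left; exact Or.inl ⟨Or.inl rfl, by simp only; linarith, by simp only; linarith⟩
  · left; exact Or.inl ⟨Or.inl rfl, by simp only; linarith, by simp only; linarith⟩
  · left; exact Or.inl ⟨Or.inr rfl, by simp only; linarith, by simp only; linarith⟩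
  · left; exact Or.inl ⟨Or.inr rfl, by simp only; linarith, by simp only; linarith⟩
  · left; exact Or.inl ⟨Or.inr rfl, by simp only; linarith, by simp only; linarith⟩
  · right; left
    refine ⟨l, hl, Or.inl ?_⟩
    simp [tp]
  · right; right; right; left
    refine ⟨l, hl, Or.inl ?_⟩
    simp only [tp, rho]
    ext <;> simp only <;> ring
  · right; right; left
    refine zA_sub (i := l) ?_
    have := zA_add (a := s l) hx
    rwa [zero_add] at this
  · right; right; right; right
    refine zB_sub (i := l) ?_
    unfold zB at hx ⊢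
    rw [List.mem_map] at hx ⊢
    obtain ⟨y, hy, rfl⟩ := hx
    refine ⟨(y.1 + -(s l), y.2), ?_, ?_⟩
    · have := zA_add (a := -(s l)) hy
      have e : (1 : ℝ) - 0 + -(s l) = 1 - s l := by ring
      rwa [e] at this
    · simp only [rho]
      ext <;> simp only
      ring

theorem VV_sub (h : Good N J s t A) {l : ℕ} (hl : l < N) {x : ℝ × ℝ}
    (hx : x ∈ VV (PP N J : ℝ) (QQ N J : ℝ) N l) :
    ((x.1, x.2 + t l * (wt N l : ℝ)) : ℝ × ℝ) ∈ GG N J s t A B := by
  have hw := wt_pos N l
  have hwN := wt_mono N hl.le
  have hQ : 10 * (wt N l : ℝ) < (QQ N J : ℝ) := by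
    rw [QQ_eq]
    have : (0 : ℝ) < ((J : ℝ) + 1) ^ 2 := by positivity
    linarith
  have t1 : -(1 / 4) * (wt N l : ℝ) ≤ t l * (wt N l : ℝ) := by
    refine mul_le_mul_of_nonneg_right ?_ hw.le
    rcases h.st l hl with ⟨_, h1⟩ | ⟨_, h1⟩ <;> rw [h1] <;> norm_num
  have t2 : t l * (wt N l : ℝ) ≤ 5 / 4 * (wt N l : ℝ) := by
    refine mul_le_mul_of_nonneg_right ?_ hw.le
    rcases h.st l hl with ⟨_, h1⟩ | ⟨_, h1⟩ <;> rw [h1] <;> norm_num
  unfold VV at hx
  simp only [List.mem_cons, List.not_mem_nil, or_false] at hx
  rcases hx with rfl | rfl | rfl | rfl | rfl | rfl | rfl | rfl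
  · left; exact Or.inr ⟨Or.inl rfl, by simp only; linarith, by simp only; linarith⟩
  · left; exact Or.inr ⟨Or.inl rfl, by simp only; linarith, by simp only; linarith⟩
  · left; exact Or.inr ⟨Or.inl rfl, by simp only; linarith, by simp only; linarith⟩
  · left; exact Or.inr ⟨Or.inr rfl, by simp only; linarith, by simp only; linarith⟩
  · left; exact Or.inr ⟨Or.inr rfl, by simp only; linarith, by simp only; linarith⟩
  · left; exact Or.inr ⟨Or.inr rfl, by simp only; linarith, by simp only; linarith⟩
  · right; left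
    refine ⟨l, hl, Or.inr ?_⟩
    simp [tq]
  · right; right; right; left
    refine ⟨l, hl, Or.inr ?_⟩
    simp only [tq, rho]
    ext <;> simp only <;> ring

end

/-- a truth assignment gives a solution -/
theorem complete {N : ℕ} {A B : List (ℕ × ℕ × ℕ)}
    (hA : ∀ e ∈ A, e.1 < N ∧ e.2.1 < N) (hB : ∀ e ∈ B, e.1 < N ∧ e.2.1 < N)
    (h : ∃ τ : ℕ → Bool, τ N = false ∧ τ (N + 1) = true ∧
      (∀ e ∈ A, ¬ (τ e.1 = true ∧ τ e.2.1 = true ∧ τ e.2.2 = false)) ∧
      (∀ e ∈ B, ¬ (τ e.1 = false ∧ τ e.2.1 = false ∧ τ e.2.2 = true))) :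
    inst N A B ∈ CTS := by
  obtain ⟨τ, hτ0, hτ1, hτA, hτB⟩ := h
  obtain ⟨s, hsdef⟩ : ∃ s : ℕ → ℝ, s = fun i => if i = N then 0 else if i = N + 1 then 1 else
    if τ i = true then 5 / 4 else -(1 / 4) := ⟨_, rfl⟩
  obtain ⟨t, htdef⟩ : ∃ t : ℕ → ℝ, t = fun i => if τ i = true then -(1 / 4) else 5 / 4 := ⟨_, rfl⟩
  have sN : s N = 0 := by simp [hsdef]
  have sN1 : s (N + 1) = 1 := by simp [hsdef]
  have sT : ∀ i, τ i = true → 1 ≤ s i ∧ s i ≤ 5 / 4 := by
    intro i hi
    simp only [hsdef]
    split_ifs with h1 h2
    · subst h1; rw [hi] at hτ0; exact absurd hτ0 (by simp)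
    · constructor <;> norm_num
    · constructor <;> norm_num
  have sF : ∀ i, τ i = false → -(1 / 4) ≤ s i ∧ s i ≤ 0 := by
    intro i hi
    simp only [hsdef]
    split_ifs with h1 h2 h3
    · constructor <;> norm_num
    · subst h2; rw [hi] at hτ1; exact absurd hτ1 (by simp)
    · rw [hi] at h3; exact absurd h3 (by simp)
    · constructor <;> norm_num
  have sT' : ∀ i < N, τ i = true → s i = 5 / 4 := by
    intro i hi h
    simp only [hsdef]
    rw [if_neg (by omega), if_neg (by omega), if_pos h]
  have sF' : ∀ i < N, τ i = false → s i = -(1 / 4) := by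
    intro i hi h
    simp only [hsdef]
    rw [if_neg (by omega), if_neg (by omega), if_neg (by simp [h])]
  have good : Good N (A.length + B.length) s t A := by
    refine ⟨fun i => ?_, fun i => ?_, fun l hl => ?_, by omega, fun e he => ?_⟩
    · cases hi : τ i with
      | true => linarith [(sT i hi).1]
      | false => exact (sF i hi).1
    · cases hi : τ i with
      | true => exact (sT i hi).2
      | false => linarith [(sF i hi).2]
    · cases hi : τ l with
      | true =>
        left
        exact ⟨sT' l hl hi, by simp [htdef, hi]⟩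
      | false =>
        right
        exact ⟨sF' l hl hi, by simp [htdef, hi]⟩
    · obtain ⟨i1, i2⟩ := hA e he
      have hno := hτA e he
      cases h1 : τ e.1 with
      | false =>
        have e1 := sF' _ i1 h1
        cases h2 : τ e.2.1 with
        | true =>
          have e2 := (sT _ h2).2
          cases h3 : τ e.2.2 with
          | true => have e3 := (sT _ h3).1; linarith
          | false => have e3 := (sF _ h3).1; linarith
        | false =>
          have e2 := (sF _ h2).2
          cases h3 : τ e.2.2 with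
          | true => have e3 := (sT _ h3).1; linarith
          | false => have e3 := (sF _ h3).1; linarith
      | true =>
        have e1 := (sT _ h1).2
        cases h2 : τ e.2.1 with
        | true =>
          have e2 := (sT _ h2).2
          cases h3 : τ e.2.2 with
          | true => have e3 := (sT _ h3).1; linarith
          | false => exact absurd ⟨h1, h2, h3⟩ hno
        | false =>
          have e2 := sF' _ i2 h2
          cases h3 : τ e.2.2 with
          | true => have e3 := (sT _ h3).1; linarith
          | false => have e3 := (sF _ h3).1; linarith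
  have good' : Good N (A.length + B.length) (fun i => 1 - s i) (fun i => 1 - t i) B := by
    refine good.mirror (by omega) (fun e he => ?_)
    obtain ⟨i1, i2⟩ := hB e he
    have hno := hτB e he
    cases h1 : τ e.1 with
    | true =>
      have e1 := sT' _ i1 h1
      cases h2 : τ e.2.1 with
      | false =>
        have e2 := (sF _ h2).1
        cases h3 : τ e.2.2 with
        | true => have e3 := (sT _ h3).2; linarith
        | false => have e3 := (sF _ h3).2; linarith
      | true =>
        have e2 := (sT _ h2).1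
        cases h3 : τ e.2.2 with
        | true => have e3 := (sT _ h3).2; linarith
        | false => have e3 := (sF _ h3).2; linarith
    | false =>
      have e1 := (sF _ h1).1
      cases h2 : τ e.2.1 with
      | false =>
        have e2 := (sF _ h2).1
        cases h3 : τ e.2.2 with
        | true => exact absurd ⟨h1, h2, h3⟩ hno
        | false => have e3 := (sF _ h3).2; linarith
      | true =>
        have e2 := sT' _ i2 h2
        cases h3 : τ e.2.2 with
        | true => have e3 := (sT _ h3).2; linarith
        | false => have e3 := (sF _ h3).2; linarith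
  have hSP := GG_SP good good'
  refine ⟨fun _ => 1, fun i => if i = 0 then (0, 0) else if i ≤ N then (s (i - 1), 0) else
    (0, t (i - 1 - N) * (wt N (i - 1 - N) : ℝ)), fun _ => one_pos, ?_⟩
  rw [convexPosition_iff]
  refine hSP.mono ?_
  rintro x ⟨i, L, hi, p, hp, rfl⟩
  unfold inst at hi
  rcases Nat.eq_zero_or_pos i with hi0 | hi0
  · subst hi0
    rw [List.getElem?_cons_zero, Option.some.injEq] at hi
    subst hi
    have h1 : cst p ∈ RR (PP N (A.length + B.length) : ℝ) (QQ N (A.length + B.length) : ℝ) N
        (A.length + B.length) A B := by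
      have := List.mem_map_of_mem (f := cst) hp
      rw [cst_RR] at this
      simpa using this
    have h2 := RR_sub (s := s) (t := t) sN sN1 h1
    simpa [cst] using h2
  · obtain ⟨j, rfl⟩ : ∃ j, i = j + 1 := ⟨i - 1, by omega⟩
    rw [List.getElem?_cons_succ] at hi
    rcases Nat.lt_or_ge j N with hj | hj
    · rw [List.getElem?_append_left (by simpa using hj)] at hi
      rw [List.getElem?_map, List.getElem?_range hj, Option.map_some, Option.some.injEq] at hi
      subst hi
      have h1 : cst p ∈ HH (PP N (A.length + B.length) : ℝ) (QQ N (A.length + B.length) : ℝ) N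
          (A.length + B.length) A B j := by
        have := List.mem_map_of_mem (f := cst) hp
        rw [cst_HH] at this
        simpa using this
      have h2 := HH_sub good hj h1
      have e1 : j + 1 ≤ N := hj
      simpa [cst, e1] using h2
    · rw [List.getElem?_append_right (by simpa using hj)] at hi
      simp only [List.length_map, List.length_range] at hi
      have hjN : j - N < N := by
        by_contra hcon
        rw [List.getElem?_eq_none (by simpa using hcon)] at hi
        exact absurd hi (by simp)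
      rw [List.getElem?_map, List.getElem?_range hjN, Option.map_some, Option.some.injEq] at hi
      subst hi
      have h1 : cst p ∈ VV (PP N (A.length + B.length) : ℝ) (QQ N (A.length + B.length) : ℝ) N
          (j - N) := by
        have := List.mem_map_of_mem (f := cst) hp
        rw [cst_VV] at this
        simpa using this
      have h2 := VV_sub (B := B) good hjN h1
      have e1 : ¬ (j + 1 ≤ N) := by omega
      simpa [cst, e1] using h2

end Pool.Agent.Helper72.CTS
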