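import Pool.Agent.Helper72.CTS.Support
import Pool.Agent.PolyTime.CookLevin

/-!
The problem CTS and the instances used for the hardness proof.
-/

namespace Pool.Agent.Helper72.CTS

open Pool.Agent.PolyTime

/-- The union of the sets `lam i • P i + t i`, where `P 0, P 1, ...` are the members of the
list `I`. -/
def union (I : List (List (ℚ × ℚ))) (lam : ℕ → ℝ) (t : ℕ → ℝ × ℝ) : Set (ℝ × ℝ) :=
  {x | ∃ (i : ℕ) (P : List (ℚ × ℚ)), I[i]? = some P ∧ ∃ p ∈ P,
    x = (lam i * (p.1 : ℝ) + (t i).1, lam i * (p.2 : ℝ) + (t i).2)}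

/-- The decision problem CTS: convex position by translations and scalings. -/
def CTS : Set (List (List (ℚ × ℚ))) :=
  {I | ∃ (lam : ℕ → ℝ) (t : ℕ → ℝ × ℝ), (∀ i, 0 < lam i) ∧ ConvexPosition (union I lam t)}

/-! ### the instances -/

/-- horizontal unit -/
def PP (N J : ℕ) : ℕ := 50 * (N + 1) + 1000 * (J + 1) ^ 2

/-- weights -/
def wt (N l : ℕ) : ℕ := (1000 * (N + 1)) ^ (min l N)

/-- vertical unit -/
def QQ (N J : ℕ) : ℕ := 10 * wt N N + 1000 * (J + 1) ^ 2

section

variable {K : Type} [Field K]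

/-- first outer point of a zone -/
def o1 (P Q : K) (J k : ℕ) (c : K) : K × K :=
  (10 * P - 2 - 100 * ((k : K) + 1) ^ 2 + 10 * ((k : K) + 1) + c,
    10 * Q - 20 * ((J : K) - (k : K)) - 1)

/-- second outer point of a zone -/
def o2 (P Q : K) (J k : ℕ) (c : K) : K × K :=
  (10 * P - 2 - 100 * ((k : K) + 1) ^ 2 - 10 * ((k : K) + 1) + c,
    10 * Q - 20 * ((J : K) - (k : K)) + 1)

/-- middle point of a zone -/
def md (P Q : K) (J k : ℕ) (c : K) : K × K :=
  (10 * P - 2 - 100 * ((k : K) + 1) ^ 2 + 3 / 4 + c,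
    10 * Q - 20 * ((J : K) - (k : K)))

/-- horizontally moving corner point -/
def tp (Q : K) (N l : ℕ) (c : K) : K × K :=
  (50 * ((N : K) - (l : K)) + c, 10 * Q - 8 * (wt N l : K))

/-- vertically moving corner point -/
def tq (Q : K) (N l : ℕ) (c : K) : K × K :=
  (50 * ((N : K) - (l : K)), 10 * Q - 8 * (wt N l : K) + c * (wt N l : K))

/-- point reflection at the centre of the box -/
def rho (P Q : K) (p : K × K) : K × K := (10 * P - p.1, 10 * Q - p.2)

/-- the points on the sides of the box -/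
def sides (P Q : K) : List (K × K) :=
  [(P, 10 * Q), (5 * P, 10 * Q), (9 * P, 10 * Q), (P, 0), (5 * P, 0), (9 * P, 0),
    (0, Q), (0, 5 * Q), (0, 9 * Q), (10 * P, Q), (10 * P, 5 * Q), (10 * P, 9 * Q)]

/-- the points in the zones of the list `L` which belong to the index `l` -/
def zA (P Q : K) (J : ℕ) (L : List (ℕ × ℕ × ℕ)) (l : ℕ) (c : K) : List (K × K) :=
  L.zipIdx.flatMap fun e =>
    (bif decide (e.1.1 = l) then [o1 P Q J e.2 c] else []) ++
    ((bif decide (e.1.2.1 = l) then [o2 P Q J e.2 c] else []) ++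
    (bif decide (e.1.2.2 = l) then [md P Q J e.2 c] else []))

/-- the reflected zones -/
def zB (P Q : K) (J : ℕ) (L : List (ℕ × ℕ × ℕ)) (l : ℕ) (c : K) : List (K × K) :=
  (zA P Q J L l (1 - c)).map (rho P Q)

/-- the base set -/
def RR (P Q : K) (N J : ℕ) (A B : List (ℕ × ℕ × ℕ)) : List (K × K) :=
  sides P Q ++ (zA P Q J A N 0 ++ (zA P Q J A (N + 1) 1 ++ (zB P Q J B N 0 ++
    zB P Q J B (N + 1) 1)))

/-- the horizontally moving set -/
def HH (P Q : K) (N J : ℕ) (A B : List (ℕ × ℕ × ℕ)) (l : ℕ) : List (K × K) :=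
  [(3 * P, 10 * Q), (4 * P, 10 * Q), (5 * P, 10 * Q), (3 * P, 0), (4 * P, 0), (5 * P, 0),
    tp Q N l 0, rho P Q (tp Q N l 1)] ++ (zA P Q J A l 0 ++ zB P Q J B l 0)

/-- the vertically moving set -/
def VV (P Q : K) (N l : ℕ) : List (K × K) :=
  [(0, 3 * Q), (0, 4 * Q), (0, 5 * Q), (10 * P, 3 * Q), (10 * P, 4 * Q), (10 * P, 5 * Q),
    tq Q N l 0, rho P Q (tq Q N l 1)]

end

/-- the instance with `N` pairs of moving sets and lists `A`, `B` of zones -/
def inst (N : ℕ) (A B : List (ℕ × ℕ × ℕ)) : List (List (ℚ × ℚ)) :=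
  RR (PP N (A.length + B.length) : ℚ) (QQ N (A.length + B.length) : ℚ) N (A.length + B.length) A B ::
    ((List.range N).map (fun l => HH (PP N (A.length + B.length) : ℚ)
        (QQ N (A.length + B.length) : ℚ) N (A.length + B.length) A B l) ++
      (List.range N).map (fun l => VV (PP N (A.length + B.length) : ℚ)
        (QQ N (A.length + B.length) : ℚ) N l))

/-! ### casts -/

/-- cast of a rational point -/
def cst (p : ℚ × ℚ) : ℝ × ℝ := ((p.1 : ℝ), (p.2 : ℝ))

theorem cst_o1 (P Q : ℚ) (J k : ℕ) (c : ℚ) : cst (o1 P Q J k c) = o1 (P : ℝ) Q J k c := by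
  simp [cst, o1]

theorem cst_o2 (P Q : ℚ) (J k : ℕ) (c : ℚ) : cst (o2 P Q J k c) = o2 (P : ℝ) Q J k c := by
  simp [cst, o2]

theorem cst_md (P Q : ℚ) (J k : ℕ) (c : ℚ) : cst (md P Q J k c) = md (P : ℝ) Q J k c := by
  simp [cst, md]

theorem cst_tp (Q : ℚ) (N l : ℕ) (c : ℚ) : cst (tp Q N l c) = tp (Q : ℝ) N l c := by
  simp [cst, tp]

theorem cst_tq (Q : ℚ) (N l : ℕ) (c : ℚ) : cst (tq Q N l c) = tq (Q : ℝ) N l c := by
  simp [cst, tq]

theorem cst_rho (P Q : ℚ) (p : ℚ × ℚ) : cst (rho P Q p) = rho (P : ℝ) Q (cst p) := by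
  simp [cst, rho]

theorem cst_sides (P Q : ℚ) : (sides P Q).map cst = sides (P : ℝ) Q := by
  simp [cst, sides]

theorem cst_zA (P Q : ℚ) (J : ℕ) (L : List (ℕ × ℕ × ℕ)) (l : ℕ) (c : ℚ) :
    (zA P Q J L l c).map cst = zA (P : ℝ) Q J L l c := by
  unfold zA
  rw [List.map_flatMap]
  congr 1
  funext e
  rw [List.map_append, List.map_append]
  congr 1
  · cases decide (e.1.1 = l) <;> simp [cst_o1]
  congr 1
  · cases decide (e.1.2.1 = l) <;> simp [cst_o2]
  · cases decide (e.1.2.2 = l) <;> simp [cst_md]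

theorem cst_zB (P Q : ℚ) (J : ℕ) (L : List (ℕ × ℕ × ℕ)) (l : ℕ) (c : ℚ) :
    (zB P Q J L l c).map cst = zB (P : ℝ) Q J L l c := by
  unfold zB
  have h := cst_zA P Q J L l (1 - c)
  push_cast at h
  rw [← h, List.map_map, List.map_map]
  congr 1
  funext p
  exact cst_rho P Q p

theorem cst_RR (P Q : ℚ) (N J : ℕ) (A B : List (ℕ × ℕ × ℕ)) :
    (RR P Q N J A B).map cst = RR (P : ℝ) Q N J A B := by
  unfold RR
  simp only [List.map_append, cst_sides, cst_zA, cst_zB, Rat.cast_zero, Rat.cast_one]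

theorem cst_HH (P Q : ℚ) (N J : ℕ) (A B : List (ℕ × ℕ × ℕ)) (l : ℕ) :
    (HH P Q N J A B l).map cst = HH (P : ℝ) Q N J A B l := by
  unfold HH
  simp only [List.map_append, cst_zA, cst_zB, Rat.cast_zero]
  congr 1
  simp only [List.map_cons, List.map_nil, cst_tp, cst_rho, Rat.cast_zero, Rat.cast_one]
  simp [cst]

theorem cst_VV (P Q : ℚ) (N l : ℕ) : (VV P Q N l).map cst = VV (P : ℝ) Q N l := by
  unfold VV
  simp only [List.map_cons, List.map_nil, cst_tq, cst_rho, Rat.cast_zero, Rat.cast_one]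
  simp [cst]

/-! ### members -/

section

variable {K : Type} [Field K]

theorem mem_zA {P Q : K} {J : ℕ} {L : List (ℕ × ℕ × ℕ)} {l : ℕ} {c : K} {x : K × K} :
    x ∈ zA P Q J L l c ↔ ∃ (k : ℕ) (e : ℕ × ℕ × ℕ), L[k]? = some e ∧
      ((e.1 = l ∧ x = o1 P Q J k c) ∨ (e.2.1 = l ∧ x = o2 P Q J k c) ∨
        (e.2.2 = l ∧ x = md P Q J k c)) := by
  unfold zA
  rw [List.mem_flatMap]
  constructor
  · rintro ⟨⟨e, k⟩, hmem, hx⟩
    rw [List.mk_mem_zipIdx_iff_getElem?] at hmem
    refine ⟨k, e, hmem, ?_⟩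
    rw [List.mem_append, List.mem_append] at hx
    rcases hx with hx | hx | hx
    · left
      by_cases h : e.1 = l
      · simp only [h, decide_true, cond_true, List.mem_singleton] at hx
        exact ⟨h, hx⟩
      · simp [h] at hx
    · right; left
      by_cases h : e.2.1 = l
      · simp only [h, decide_true, cond_true, List.mem_singleton] at hx
        exact ⟨h, hx⟩
      · simp [h] at hx
    · right; right
      by_cases h : e.2.2 = l
      · simp only [h, decide_true, cond_true, List.mem_singleton] at hx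
        exact ⟨h, hx⟩
      · simp [h] at hx
  · rintro ⟨k, e, hmem, hx⟩
    refine ⟨(e, k), List.mk_mem_zipIdx_iff_getElem?.2 hmem, ?_⟩
    rw [List.mem_append, List.mem_append]
    rcases hx with ⟨h, hx⟩ | ⟨h, hx⟩ | ⟨h, hx⟩
    · left; simp [h, hx]
    · right; left; simp [h, hx]
    · right; right; simp [h, hx]

end

end Pool.Agent.Helper72.CTS
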