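import Pool.Agent.Helper72.CTS.Poly

/-!
The reduction from satisfiability of formulas with three literals per clause.
-/

set_option linter.dupNamespace false

namespace Pool.Agent.Helper72.CTS

open Pool.Agent.PolyTime

/-- variable occurrences -/
def occ (φ : List (List (ℕ × Bool))) : List ℕ := φ.flatten.map (fun l => l.1)

/-- rank of a variable among the occurrences -/
def rk (φ : List (List (ℕ × Bool))) (x : ℕ) : ℕ := ((occ φ).filter (fun y => decide (y < x))).length

/-- code of a literal -/
def code (φ : List (List (ℕ × Bool))) (l : ℕ × Bool) : ℕ := 2 * rk φ l.1 + (bif l.2 then 0 else 1)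

/-- code of the complementary literal -/
def ccode (φ : List (List (ℕ × Bool))) (l : ℕ × Bool) : ℕ := 2 * rk φ l.1 + (bif l.2 then 1 else 0)

/-- number of moving pairs -/
def NN (φ : List (List (ℕ × Bool))) : ℕ := 2 * (occ φ).length

/-- zones of the first kind -/
def AA (φ : List (List (ℕ × Bool))) : List (ℕ × ℕ × ℕ) :=
  (List.range (occ φ).length).map (fun v => (2 * v, 2 * v + 1, NN φ))

/-- zones of the second kind -/
def BB (φ : List (List (ℕ × Bool))) : List (ℕ × ℕ × ℕ) :=
  (List.range (occ φ).length).map (fun v => (2 * v, 2 * v + 1, NN φ + 1)) ++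
  φ.map (fun c => (code φ (c.getD 0 (0, false)), code φ (c.getD 1 (0, false)),
    ccode φ (c.getD 2 (0, false))))

/-- the reduction -/
def toCTS (φ : List (List (ℕ × Bool))) : List (List (ℚ × ℚ)) :=
  bif φ.all (fun c => decide (c.length = 3)) then inst (NN φ) (AA φ) (BB φ)
  else inst 1 [(0, 0, 1)] [(0, 0, 2)]

theorem pt_toCTS : PolyTime toCTS := by
  have hocc : PolyTime occ := by
    unfold occ
    fun_prop
  have hrk : PolyTime (fun p : List (List (ℕ × Bool)) × ℕ => rk p.1 p.2) := by
    unfold rk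
    have h1 : PolyTime (fun p : List (List (ℕ × Bool)) × ℕ => occ p.1) := hocc.comp (by fun_prop)
    exact PolyTime.length (PolyTime.filter h1 (by fun_prop))
  have hcode : PolyTime (fun p : List (List (ℕ × Bool)) × (ℕ × Bool) => code p.1 p.2) := by
    unfold code
    have h1 : PolyTime (fun p : List (List (ℕ × Bool)) × (ℕ × Bool) => rk p.1 p.2.1) :=
      hrk.comp (f := fun p : List (List (ℕ × Bool)) × (ℕ × Bool) => (p.1, p.2.1)) (by fun_prop)
    have h2 : ∀ f : List (List (ℕ × Bool)) × (ℕ × Bool) → ℕ, PolyTime f → PolyTime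
        (fun p : List (List (ℕ × Bool)) × (ℕ × Bool) => 2 * f p + (bif p.2.2 then 0 else 1)) := by
      intro f hf
      fun_prop
    exact h2 _ h1
  have hccode : PolyTime (fun p : List (List (ℕ × Bool)) × (ℕ × Bool) => ccode p.1 p.2) := by
    unfold ccode
    have h1 : PolyTime (fun p : List (List (ℕ × Bool)) × (ℕ × Bool) => rk p.1 p.2.1) :=
      hrk.comp (f := fun p : List (List (ℕ × Bool)) × (ℕ × Bool) => (p.1, p.2.1)) (by fun_prop)
    have h2 : ∀ f : List (List (ℕ × Bool)) × (ℕ × Bool) → ℕ, PolyTime f → PolyTime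
        (fun p : List (List (ℕ × Bool)) × (ℕ × Bool) => 2 * f p + (bif p.2.2 then 1 else 0)) := by
      intro f hf
      fun_prop
    exact h2 _ h1
  have hNN : PolyTime NN := by
    unfold NN
    exact PolyTime.mul (by fun_prop) hocc.length
  have hNNb : PBd NN := by
    unfold NN
    exact (PBd.const 2).mul (pbd_length hocc)
  have hrange : PolyTime (fun φ : List (List (ℕ × Bool)) => List.range (occ φ).length) :=
    PolyTime.range_length hocc
  have hAA : PolyTime AA := by
    unfold AA
    refine PolyTime.map hrange ?_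
    have h1 : PolyTime (fun p : List (List (ℕ × Bool)) × ℕ => NN p.1) := hNN.comp (by fun_prop)
    have h2 : ∀ f : List (List (ℕ × Bool)) × ℕ → ℕ, PolyTime f → PolyTime
        (fun p : List (List (ℕ × Bool)) × ℕ => (2 * p.2, 2 * p.2 + 1, f p)) := by
      intro f hf
      fun_prop
    exact h2 _ h1
  have hBB : PolyTime BB := by
    unfold BB
    refine PolyTime.append (PolyTime.map hrange ?_) (PolyTime.map (by fun_prop) ?_)
    · have h1 : PolyTime (fun p : List (List (ℕ × Bool)) × ℕ => NN p.1) := hNN.comp (by fun_prop)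
      have h2 : ∀ f : List (List (ℕ × Bool)) × ℕ → ℕ, PolyTime f → PolyTime
          (fun p : List (List (ℕ × Bool)) × ℕ => (2 * p.2, 2 * p.2 + 1, f p + 1)) := by
        intro f hf
        fun_prop
      exact h2 _ h1
    · refine PolyTime.prodMk ?_ (PolyTime.prodMk ?_ ?_)
      · exact hcode.comp (f := fun p : List (List (ℕ × Bool)) × List (ℕ × Bool) =>
          (p.1, p.2.getD 0 (0, false))) (by fun_prop)
      · exact hcode.comp (f := fun p : List (List (ℕ × Bool)) × List (ℕ × Bool) =>
          (p.1, p.2.getD 1 (0, false))) (by fun_prop)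
      · exact hccode.comp (f := fun p : List (List (ℕ × Bool)) × List (ℕ × Bool) =>
          (p.1, p.2.getD 2 (0, false))) (by fun_prop)
  unfold toCTS
  exact PolyTime.cond (by fun_prop) (pt_inst hNN hAA hBB hNNb) (PolyTime.const _)

theorem rk_lt {φ : List (List (ℕ × Bool))} {x : ℕ} (hx : x ∈ occ φ) : rk φ x < (occ φ).length := by
  unfold rk
  rw [List.length_filter_lt_length_iff_exists]
  exact ⟨x, hx, by simp⟩

theorem rk_lt_rk {φ : List (List (ℕ × Bool))} {x y : ℕ} (hx : x ∈ occ φ) (hxy : x < y) :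
    rk φ x < rk φ y := by
  unfold rk
  have h1 : (occ φ).filter (fun z => decide (z < x)) =
      ((occ φ).filter (fun z => decide (z < y))).filter (fun z => decide (z < x)) := by
    rw [List.filter_filter]
    apply List.filter_congr
    intro z _
    rw [Bool.eq_iff_iff]
    simp only [decide_eq_true_eq, Bool.and_eq_true]
    omega
  rw [h1, List.length_filter_lt_length_iff_exists]
  exact ⟨x, List.mem_filter.2 ⟨hx, by simpa using hxy⟩, by simp⟩

theorem rk_inj {φ : List (List (ℕ × Bool))} {x y : ℕ} (hx : x ∈ occ φ) (hy : y ∈ occ φ)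
    (h : rk φ x = rk φ y) : x = y := by
  rcases lt_trichotomy x y with h1 | h1 | h1
  · have := rk_lt_rk hx h1; omega
  · exact h1
  · have := rk_lt_rk hy h1; omega

theorem mem_occ {φ : List (List (ℕ × Bool))} {c : List (ℕ × Bool)} {l : ℕ × Bool} (hc : c ∈ φ)
    (hl : l ∈ c) : l.1 ∈ occ φ := by
  unfold occ
  exact List.mem_map.2 ⟨l, List.mem_flatten.2 ⟨c, hc, hl⟩, rfl⟩

theorem code_lt {φ : List (List (ℕ × Bool))} {l : ℕ × Bool} (hl : l.1 ∈ occ φ) :
    code φ l < NN φ := by
  have := rk_lt hl
  unfold code NN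
  cases l.2 <;> simp <;> omega

theorem ccode_lt {φ : List (List (ℕ × Bool))} {l : ℕ × Bool} (hl : l.1 ∈ occ φ) :
    ccode φ l < NN φ := by
  have := rk_lt hl
  unfold ccode NN
  cases l.2 <;> simp <;> omega

theorem inst_mem_iff {φ : List (List (ℕ × Bool))} (h3 : ∀ c ∈ φ, c.length = 3) :
    inst (NN φ) (AA φ) (BB φ) ∈ CTS ↔ φ ∈ SAT := by
  have hget : ∀ c ∈ φ, ∃ l1 l2 l3 : ℕ × Bool, c = [l1, l2, l3] := by
    intro c hc
    have := h3 c hc
    match c, this with
    | [a, b, d], _ => exact ⟨a, b, d, rfl⟩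
  have hBmem : ∀ l1 l2 l3 : ℕ × Bool, [l1, l2, l3] ∈ φ →
      ((code φ l1, code φ l2, ccode φ l3) : ℕ × ℕ × ℕ) ∈ BB φ := by
    intro l1 l2 l3 hc
    unfold BB
    rw [List.mem_append]
    right
    exact List.mem_map.2 ⟨[l1, l2, l3], hc, rfl⟩
  have hBcases : ∀ e ∈ BB φ, (∃ v < (occ φ).length, e = (2 * v, 2 * v + 1, NN φ + 1)) ∨
      ∃ l1 l2 l3 : ℕ × Bool, [l1, l2, l3] ∈ φ ∧ e = (code φ l1, code φ l2, ccode φ l3) := by
    intro e he
    unfold BB at he
    rw [List.mem_append, List.mem_map, List.mem_map] at he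
    rcases he with ⟨v, hv, rfl⟩ | ⟨c, hc, rfl⟩
    · left
      exact ⟨v, List.mem_range.1 hv, rfl⟩
    · right
      obtain ⟨l1, l2, l3, rfl⟩ := hget c hc
      exact ⟨l1, l2, l3, hc, rfl⟩
  have hAcases : ∀ e ∈ AA φ, ∃ v < (occ φ).length, e = (2 * v, 2 * v + 1, NN φ) := by
    intro e he
    unfold AA at he
    rw [List.mem_map] at he
    obtain ⟨v, hv, rfl⟩ := he
    exact ⟨v, List.mem_range.1 hv, rfl⟩
  constructor
  · intro h
    obtain ⟨τ, hτ0, hτ1, hτA, hτB⟩ := sound (fun e he => by
      obtain ⟨v, hv, rfl⟩ := hAcases e he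
      unfold NN
      refine ⟨?_, ?_, ?_⟩ <;> simp only <;> omega) (fun e he => by
      rcases hBcases e he with ⟨v, hv, rfl⟩ | ⟨l1, l2, l3, hc, rfl⟩
      · unfold NN
        refine ⟨?_, ?_, ?_⟩ <;> simp only <;> omega
      · have h1 := code_lt (mem_occ hc (l := l1) (by simp))
        have h2 := code_lt (mem_occ hc (l := l2) (by simp))
        have h3 := ccode_lt (mem_occ hc (l := l3) (by simp))
        refine ⟨?_, ?_, ?_⟩ <;> simp only <;> omega) h
    have hcompl : ∀ v < (occ φ).length, τ (2 * v + 1) = !τ (2 * v) := by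
      intro v hv
      have h1 := hτA (2 * v, 2 * v + 1, NN φ) (by
        unfold AA
        exact List.mem_map.2 ⟨v, List.mem_range.2 hv, rfl⟩)
      have h2 := hτB (2 * v, 2 * v + 1, NN φ + 1) (by
        unfold BB
        rw [List.mem_append]
        left
        exact List.mem_map.2 ⟨v, List.mem_range.2 hv, rfl⟩)
      simp only [hτ0, hτ1, and_true] at h1 h2
      cases h3 : τ (2 * v) <;> cases h4 : τ (2 * v + 1) <;> simp_all
    refine ⟨fun x => τ (2 * rk φ x), fun c hc => ?_⟩
    obtain ⟨l1, l2, l3, rfl⟩ := hget c hc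
    have hno := hτB _ (hBmem l1 l2 l3 hc)
    have hcode : ∀ l ∈ [l1, l2, l3], (τ (code φ l) = true ↔ τ (2 * rk φ l.1) = l.2) ∧
        (τ (ccode φ l) = false ↔ τ (2 * rk φ l.1) = l.2) := by
      intro l hl
      have hlt := rk_lt (mem_occ hc hl)
      have hcp := hcompl _ hlt
      unfold code ccode
      cases hb : l.2 with
      | true => simp [hcp]
      | false => simp [hcp]
    by_contra hcon
    push Not at hcon
    apply hno
    refine ⟨?_, ?_, ?_⟩
    · rw [Bool.eq_false_iff]
      intro h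
      exact hcon l1 (by simp) (((hcode l1 (by simp)).1).1 h)
    · rw [Bool.eq_false_iff]
      intro h
      exact hcon l2 (by simp) (((hcode l2 (by simp)).1).1 h)
    · by_contra h
      rw [Bool.not_eq_true] at h
      exact hcon l3 (by simp) (((hcode l3 (by simp)).2).1 h)
  · rintro ⟨s, hs⟩
    classical
    obtain ⟨s', hs'⟩ : ∃ s' : ℕ → Bool, ∀ x ∈ occ φ, s' (rk φ x) = s x := by
      refine ⟨fun r => decide (∃ x ∈ occ φ, rk φ x = r ∧ s x = true), fun x hx => ?_⟩
      cases hsx : s x with
      | true =>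
        rw [decide_eq_true_eq]
        exact ⟨x, hx, rfl, hsx⟩
      | false =>
        rw [decide_eq_false_iff_not]
        rintro ⟨y, hy, hyx, hsy⟩
        rw [rk_inj hy hx hyx, hsx] at hsy
        exact absurd hsy (by simp)
    obtain ⟨τ, hτ⟩ : ∃ τ : ℕ → Bool, τ = fun i => if i = NN φ then false else
      if i = NN φ + 1 then true else if i % 2 = 0 then s' (i / 2) else !s' (i / 2) := ⟨_, rfl⟩
    have e0 : τ (NN φ) = false := by simp [hτ]
    have e1 : τ (NN φ + 1) = true := by simp [hτ]
    have e2 : ∀ v < (occ φ).length, τ (2 * v) = s' v := by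
      intro v hv
      have h1 : 2 * v ≠ NN φ := by unfold NN; omega
      have h2 : 2 * v ≠ NN φ + 1 := by unfold NN; omega
      have h3 : 2 * v % 2 = 0 := by omega
      have h4 : 2 * v / 2 = v := by omega
      simp only [hτ, h1, h2, h3, h4, if_true, if_false]
    have e3 : ∀ v < (occ φ).length, τ (2 * v + 1) = !s' v := by
      intro v hv
      have h1 : 2 * v + 1 ≠ NN φ := by unfold NN; omega
      have h2 : 2 * v + 1 ≠ NN φ + 1 := by unfold NN; omega
      have h3 : (2 * v + 1) % 2 = 1 := by omega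
      have h4 : (2 * v + 1) / 2 = v := by omega
      simp only [hτ, h1, h2, h3, h4, if_false, one_ne_zero]
    have ecode : ∀ l : ℕ × Bool, l.1 ∈ occ φ → (τ (code φ l) = decide (s l.1 = l.2)) ∧
        (τ (ccode φ l) = !decide (s l.1 = l.2)) := by
      intro l hl
      have hlt := rk_lt hl
      have h1 := e2 _ hlt
      have h2 := e3 _ hlt
      rw [hs' _ hl] at h1 h2
      unfold code ccode
      cases hb : l.2 <;> cases hsl : s l.1 <;> simp_all
    refine complete (fun e he => ?_) (fun e he => ?_) ⟨τ, e0, e1, fun e he => ?_, fun e he => ?_⟩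
    · obtain ⟨v, hv, rfl⟩ := hAcases e he
      unfold NN
      constructor <;> simp only <;> omega
    · rcases hBcases e he with ⟨v, hv, rfl⟩ | ⟨l1, l2, l3, hc, rfl⟩
      · unfold NN
        constructor <;> simp only <;> omega
      · have h1 := code_lt (mem_occ hc (l := l1) (by simp))
        have h2 := code_lt (mem_occ hc (l := l2) (by simp))
        exact ⟨h1, h2⟩
    · obtain ⟨v, hv, rfl⟩ := hAcases e he
      rintro ⟨h1, h2, -⟩
      simp only at h1 h2
      rw [e2 v hv] at h1
      rw [e3 v hv, h1] at h2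
      exact absurd h2 (by simp)
    · rcases hBcases e he with ⟨v, hv, rfl⟩ | ⟨l1, l2, l3, hc, rfl⟩
      · rintro ⟨h1, h2, -⟩
        simp only at h1 h2
        rw [e2 v hv] at h1
        rw [e3 v hv, h1] at h2
        exact absurd h2 (by simp)
      · rintro ⟨h1, h2, h3⟩
        simp only at h1 h2 h3
        obtain ⟨l, hl, hsl⟩ := hs _ hc
        rw [(ecode l1 (mem_occ hc (by simp))).1] at h1
        rw [(ecode l2 (mem_occ hc (by simp))).1] at h2
        rw [(ecode l3 (mem_occ hc (by simp))).2] at h3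
        simp only [decide_eq_false_iff_not, Bool.not_eq_true'] at h1 h2 h3
        simp only [List.mem_cons, List.not_mem_nil, or_false] at hl
        rcases hl with rfl | rfl | rfl
        · exact h1 hsl
        · exact h2 hsl
        · exact h3 hsl

theorem no_inst : inst 1 [(0, 0, 1)] [(0, 0, 2)] ∉ CTS := by
  intro h
  obtain ⟨τ, hτ0, hτ1, hτA, hτB⟩ := sound (by simp) (by simp) h
  have h1 := hτA (0, 0, 1) (by simp)
  have h2 := hτB (0, 0, 2) (by simp)
  simp only [hτ0, hτ1, and_true, and_self] at h1 h2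
  cases h3 : τ 0 <;> simp_all

theorem toCTS_mem (φ : List (List (ℕ × Bool))) : φ ∈ SAT3 ↔ toCTS φ ∈ CTS := by
  unfold toCTS
  by_cases h : ∀ c ∈ φ, c.length = 3
  · have h1 : φ.all (fun c => decide (c.length = 3)) = true := by
      rw [List.all_eq_true]
      intro c hc
      simpa using h c hc
    rw [h1, cond_true, inst_mem_iff h]
    exact ⟨fun h => h.2, fun h' => ⟨h, h'⟩⟩
  · have h1 : φ.all (fun c => decide (c.length = 3)) = false := by
      rw [Bool.eq_false_iff]
      intro h2
      rw [List.all_eq_true] at h2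
      exact h (fun c hc => by simpa using h2 c hc)
    rw [h1, cond_false]
    exact ⟨fun h2 => absurd h2.1 h, fun h2 => absurd h2 no_inst⟩

/-- **CTS is NP-hard.** -/
theorem npHard_CTS : NPHard CTS := npHard_SAT3.of_red ⟨toCTS, pt_toCTS, toCTS_mem⟩

end Pool.Agent.Helper72.CTS
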