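import Pool.Agent.Helper72.CTS.Complete2

/-!
The instances are computable in polynomial time.
-/

set_option linter.dupNamespace false

namespace Pool.Agent.Helper72.CTS

open Pool.Agent.PolyTime

section

variable {α : Type} [PEnc α]

theorem pt_wt {N l : α → ℕ} (hN : PolyTime N) (hl : PolyTime l) (hb : PBd N) :
    PolyTime (fun a => wt (N a) (l a)) := by
  unfold wt
  exact PolyTime.pow (by fun_prop) (by fun_prop) (hb.mono (fun a => min_le_right _ _))

theorem pt_PP {N J : α → ℕ} (hN : PolyTime N) (hJ : PolyTime J) :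
    PolyTime (fun a => PP (N a) (J a)) := by
  unfold PP
  fun_prop

theorem pt_QQ {N J : α → ℕ} (hN : PolyTime N) (hJ : PolyTime J) (hb : PBd N) :
    PolyTime (fun a => QQ (N a) (J a)) := by
  have h1 := pt_wt hN hN hb
  unfold QQ
  have h2 : ∀ w : α → ℕ, PolyTime w → PolyTime (fun a => 10 * w a + 1000 * (J a + 1) ^ 2) := by
    intro w hw
    fun_prop
  exact h2 _ h1

theorem pt_o1 {P Q c : α → ℚ} {J k : α → ℕ} (hP : PolyTime P) (hQ : PolyTime Q)
    (hc : PolyTime c) (hJ : PolyTime J) (hk : PolyTime k) :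
    PolyTime (fun a => o1 (P a) (Q a) (J a) (k a) (c a)) := by
  have : PolyTime (fun a => ((10 * P a - 2 - 100 * ((((k a : ℕ) : ℚ) + 1) * (((k a : ℕ) : ℚ) + 1))
      + 10 * (((k a : ℕ) : ℚ) + 1) + c a,
      10 * Q a - 20 * (((J a : ℕ) : ℚ) - ((k a : ℕ) : ℚ)) - 1) : ℚ × ℚ)) := by
    fun_prop
  refine this.congr (fun a => ?_)
  rw [o1, sq]

theorem pt_o2 {P Q c : α → ℚ} {J k : α → ℕ} (hP : PolyTime P) (hQ : PolyTime Q)
    (hc : PolyTime c) (hJ : PolyTime J) (hk : PolyTime k) :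
    PolyTime (fun a => o2 (P a) (Q a) (J a) (k a) (c a)) := by
  have : PolyTime (fun a => ((10 * P a - 2 - 100 * ((((k a : ℕ) : ℚ) + 1) * (((k a : ℕ) : ℚ) + 1))
      - 10 * (((k a : ℕ) : ℚ) + 1) + c a,
      10 * Q a - 20 * (((J a : ℕ) : ℚ) - ((k a : ℕ) : ℚ)) + 1) : ℚ × ℚ)) := by
    fun_prop
  refine this.congr (fun a => ?_)
  rw [o2, sq]

theorem pt_md {P Q c : α → ℚ} {J k : α → ℕ} (hP : PolyTime P) (hQ : PolyTime Q)
    (hc : PolyTime c) (hJ : PolyTime J) (hk : PolyTime k) :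
    PolyTime (fun a => md (P a) (Q a) (J a) (k a) (c a)) := by
  have : PolyTime (fun a => ((10 * P a - 2 - 100 * ((((k a : ℕ) : ℚ) + 1) * (((k a : ℕ) : ℚ) + 1))
      + 3 / 4 + c a,
      10 * Q a - 20 * (((J a : ℕ) : ℚ) - ((k a : ℕ) : ℚ))) : ℚ × ℚ)) := by
    fun_prop
  refine this.congr (fun a => ?_)
  rw [md, sq]

theorem pt_tp {Q c : α → ℚ} {N l : α → ℕ} (hQ : PolyTime Q) (hc : PolyTime c) (hN : PolyTime N)
    (hl : PolyTime l) (hb : PBd N) : PolyTime (fun a => tp (Q a) (N a) (l a) (c a)) := by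
  have h1 := pt_wt hN hl hb
  have h2 : ∀ w : α → ℕ, PolyTime w → PolyTime (fun a =>
      ((50 * (((N a : ℕ) : ℚ) - ((l a : ℕ) : ℚ)) + c a, 10 * Q a - 8 * ((w a : ℕ) : ℚ)) :
        ℚ × ℚ)) := by
    intro w hw
    fun_prop
  exact h2 _ h1

theorem pt_tq {Q c : α → ℚ} {N l : α → ℕ} (hQ : PolyTime Q) (hc : PolyTime c) (hN : PolyTime N)
    (hl : PolyTime l) (hb : PBd N) : PolyTime (fun a => tq (Q a) (N a) (l a) (c a)) := by
  have h1 := pt_wt hN hl hb
  have h2 : ∀ w : α → ℕ, PolyTime w → PolyTime (fun a =>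
      ((50 * (((N a : ℕ) : ℚ) - ((l a : ℕ) : ℚ)), 10 * Q a - 8 * ((w a : ℕ) : ℚ) +
        c a * ((w a : ℕ) : ℚ)) : ℚ × ℚ)) := by
    intro w hw
    fun_prop
  exact h2 _ h1

theorem pt_rho {P Q : α → ℚ} {p : α → ℚ × ℚ} (hP : PolyTime P) (hQ : PolyTime Q)
    (hp : PolyTime p) : PolyTime (fun a => rho (P a) (Q a) (p a)) := by
  unfold rho
  fun_prop

theorem pt_sides {P Q : α → ℚ} (hP : PolyTime P) (hQ : PolyTime Q) :
    PolyTime (fun a => sides (P a) (Q a)) := by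
  unfold sides
  fun_prop

theorem pt_zA {P Q c : α → ℚ} {J l : α → ℕ} {L : α → List (ℕ × ℕ × ℕ)} (hP : PolyTime P)
    (hQ : PolyTime Q) (hc : PolyTime c) (hJ : PolyTime J) (hl : PolyTime l) (hL : PolyTime L) :
    PolyTime (fun a => zA (P a) (Q a) (J a) (L a) (l a) (c a)) := by
  unfold zA
  refine PolyTime.flatMap hL.zipIdx ?_
  have h1 : PolyTime (fun p : α × ((ℕ × ℕ × ℕ) × ℕ) => o1 (P p.1) (Q p.1) (J p.1) p.2.2 (c p.1)) :=
    pt_o1 (by fun_prop) (by fun_prop) (by fun_prop) (by fun_prop) (by fun_prop)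
  have h2 : PolyTime (fun p : α × ((ℕ × ℕ × ℕ) × ℕ) => o2 (P p.1) (Q p.1) (J p.1) p.2.2 (c p.1)) :=
    pt_o2 (by fun_prop) (by fun_prop) (by fun_prop) (by fun_prop) (by fun_prop)
  have h3 : PolyTime (fun p : α × ((ℕ × ℕ × ℕ) × ℕ) => md (P p.1) (Q p.1) (J p.1) p.2.2 (c p.1)) :=
    pt_md (by fun_prop) (by fun_prop) (by fun_prop) (by fun_prop) (by fun_prop)
  have key : ∀ f1 f2 f3 : α × ((ℕ × ℕ × ℕ) × ℕ) → ℚ × ℚ, PolyTime f1 → PolyTime f2 →
      PolyTime f3 → PolyTime (fun p : α × ((ℕ × ℕ × ℕ) × ℕ) =>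
        (bif decide (p.2.1.1 = l p.1) then [f1 p] else []) ++
        ((bif decide (p.2.1.2.1 = l p.1) then [f2 p] else []) ++
        (bif decide (p.2.1.2.2 = l p.1) then [f3 p] else []))) := by
    intro f1 f2 f3 h1 h2 h3
    fun_prop
  exact key _ _ _ h1 h2 h3

theorem pt_zB {P Q c : α → ℚ} {J l : α → ℕ} {L : α → List (ℕ × ℕ × ℕ)} (hP : PolyTime P)
    (hQ : PolyTime Q) (hc : PolyTime c) (hJ : PolyTime J) (hl : PolyTime l) (hL : PolyTime L) :
    PolyTime (fun a => zB (P a) (Q a) (J a) (L a) (l a) (c a)) := by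
  unfold zB
  refine PolyTime.map (pt_zA hP hQ (by fun_prop) hJ hl hL) ?_
  exact pt_rho (by fun_prop) (by fun_prop) (by fun_prop)

theorem pt_RR {P Q : α → ℚ} {N J : α → ℕ} {A B : α → List (ℕ × ℕ × ℕ)} (hP : PolyTime P)
    (hQ : PolyTime Q) (hN : PolyTime N) (hJ : PolyTime J) (hA : PolyTime A) (hB : PolyTime B) :
    PolyTime (fun a => RR (P a) (Q a) (N a) (J a) (A a) (B a)) := by
  unfold RR
  refine PolyTime.append (pt_sides hP hQ) (PolyTime.append ?_ (PolyTime.append ?_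
    (PolyTime.append ?_ ?_)))
  · exact pt_zA hP hQ (by fun_prop) hJ hN hA
  · exact pt_zA hP hQ (by fun_prop) hJ (by fun_prop) hA
  · exact pt_zB hP hQ (by fun_prop) hJ hN hB
  · exact pt_zB hP hQ (by fun_prop) hJ (by fun_prop) hB

theorem pt_HH {P Q : α → ℚ} {N J l : α → ℕ} {A B : α → List (ℕ × ℕ × ℕ)} (hP : PolyTime P)
    (hQ : PolyTime Q) (hN : PolyTime N) (hJ : PolyTime J) (hA : PolyTime A) (hB : PolyTime B)
    (hl : PolyTime l) (hb : PBd N) :
    PolyTime (fun a => HH (P a) (Q a) (N a) (J a) (A a) (B a) (l a)) := by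
  unfold HH
  have h1 : PolyTime (fun a => tp (Q a) (N a) (l a) 0) := pt_tp hQ (by fun_prop) hN hl hb
  have h2 : PolyTime (fun a => rho (P a) (Q a) (tp (Q a) (N a) (l a) 1)) :=
    pt_rho hP hQ (pt_tp hQ (by fun_prop) hN hl hb)
  have key : ∀ f1 f2 : α → ℚ × ℚ, PolyTime f1 → PolyTime f2 → PolyTime (fun a =>
      [(3 * P a, 10 * Q a), (4 * P a, 10 * Q a), (5 * P a, 10 * Q a), (3 * P a, 0), (4 * P a, 0),
        (5 * P a, 0), f1 a, f2 a]) := by
    intro f1 f2 h1 h2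
    fun_prop
  exact PolyTime.append (key _ _ h1 h2) (PolyTime.append (pt_zA hP hQ (by fun_prop) hJ hl hA)
    (pt_zB hP hQ (by fun_prop) hJ hl hB))

theorem pt_VV {P Q : α → ℚ} {N l : α → ℕ} (hP : PolyTime P)
    (hQ : PolyTime Q) (hN : PolyTime N) (hl : PolyTime l) (hb : PBd N) :
    PolyTime (fun a => VV (P a) (Q a) (N a) (l a)) := by
  unfold VV
  have h1 : PolyTime (fun a => tq (Q a) (N a) (l a) 0) := pt_tq hQ (by fun_prop) hN hl hb
  have h2 : PolyTime (fun a => rho (P a) (Q a) (tq (Q a) (N a) (l a) 1)) :=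
    pt_rho hP hQ (pt_tq hQ (by fun_prop) hN hl hb)
  have key : ∀ f1 f2 : α → ℚ × ℚ, PolyTime f1 → PolyTime f2 → PolyTime (fun a =>
      [(0, 3 * Q a), (0, 4 * Q a), (0, 5 * Q a), (10 * P a, 3 * Q a), (10 * P a, 4 * Q a),
        (10 * P a, 5 * Q a), f1 a, f2 a]) := by
    intro f1 f2 h1 h2
    fun_prop
  exact key _ _ h1 h2

theorem pt_inst {N : α → ℕ} {A B : α → List (ℕ × ℕ × ℕ)} (hN : PolyTime N) (hA : PolyTime A)
    (hB : PolyTime B) (hb : PBd N) : PolyTime (fun a => inst (N a) (A a) (B a)) := by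
  have hJ : PolyTime (fun a => (A a).length + (B a).length) := by fun_prop
  have hP : PolyTime (fun a => ((PP (N a) ((A a).length + (B a).length) : ℕ) : ℚ)) :=
    PolyTime.natCast_rat (pt_PP hN hJ)
  have hQ : PolyTime (fun a => ((QQ (N a) ((A a).length + (B a).length) : ℕ) : ℚ)) :=
    PolyTime.natCast_rat (pt_QQ hN hJ hb)
  unfold inst
  refine PolyTime.cons (pt_RR hP hQ hN hJ hA hB) (PolyTime.append ?_ ?_)
  · refine PolyTime.map (PolyTime.range hN hb) ?_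
    exact pt_HH (hP.comp (f := fun p : α × ℕ => p.1) (by fun_prop))
      (hQ.comp (f := fun p : α × ℕ => p.1) (by fun_prop))
      (hN.comp (f := fun p : α × ℕ => p.1) (by fun_prop))
      (hJ.comp (f := fun p : α × ℕ => p.1) (by fun_prop))
      (hA.comp (f := fun p : α × ℕ => p.1) (by fun_prop))
      (hB.comp (f := fun p : α × ℕ => p.1) (by fun_prop)) (by fun_prop)
      (hb.comp (f := fun p : α × ℕ => p.1) (by fun_prop))
  · refine PolyTime.map (PolyTime.range hN hb) ?_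
    exact pt_VV (hP.comp (f := fun p : α × ℕ => p.1) (by fun_prop))
      (hQ.comp (f := fun p : α × ℕ => p.1) (by fun_prop))
      (hN.comp (f := fun p : α × ℕ => p.1) (by fun_prop)) (by fun_prop)
      (hb.comp (f := fun p : α × ℕ => p.1) (by fun_prop))

end

end Pool.Agent.Helper72.CTS
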