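import Pool.Agent.Helper72.CTS.Defs

/-!
A solution of the instance yields a truth assignment.
-/

set_option linter.dupNamespace false

namespace Pool.Agent.Helper72.CTS

open Pool.Agent.PolyTime

/-- the box -/
theorem box {S : Set (ℝ × ℝ)} (h : SP S) {P Q : ℝ} (hP : 0 < P) (hQ : 0 < Q)
    (hs : ∀ p ∈ sides P Q, p ∈ S) :
    ∀ q ∈ S, 0 ≤ q.1 ∧ q.1 ≤ 10 * P ∧ 0 ≤ q.2 ∧ q.2 ≤ 10 * Q := by
  have a1 : ((P, 10 * Q) : ℝ × ℝ) ∈ S := hs _ (by simp [sides])
  have a2 : ((5 * P, 10 * Q) : ℝ × ℝ) ∈ S := hs _ (by simp [sides])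
  have a3 : ((9 * P, 10 * Q) : ℝ × ℝ) ∈ S := hs _ (by simp [sides])
  have b1 : ((P, 0) : ℝ × ℝ) ∈ S := hs _ (by simp [sides])
  have b2 : ((5 * P, 0) : ℝ × ℝ) ∈ S := hs _ (by simp [sides])
  have b3 : ((9 * P, 0) : ℝ × ℝ) ∈ S := hs _ (by simp [sides])
  have c1 : ((0, Q) : ℝ × ℝ) ∈ S := hs _ (by simp [sides])
  have c2 : ((0, 5 * Q) : ℝ × ℝ) ∈ S := hs _ (by simp [sides])
  have c3 : ((0, 9 * Q) : ℝ × ℝ) ∈ S := hs _ (by simp [sides])
  have d1 : ((10 * P, Q) : ℝ × ℝ) ∈ S := hs _ (by simp [sides])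
  have d2 : ((10 * P, 5 * Q) : ℝ × ℝ) ∈ S := hs _ (by simp [sides])
  have d3 : ((10 * P, 9 * Q) : ℝ × ℝ) ∈ S := hs _ (by simp [sides])
  have top : ∀ q ∈ S, q.2 ≤ 10 * Q := by
    rcases h.horizontal (by linarith) (by linarith) a1 a2 a3 with h1 | h1
    · exact h1
    · have := h1 _ b1
      simp only at this
      linarith
  have bot : ∀ q ∈ S, 0 ≤ q.2 := by
    rcases h.horizontal (by linarith) (by linarith) b1 b2 b3 with h1 | h1
    · have := h1 _ a1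
      simp only at this
      linarith
    · exact h1
  have left : ∀ q ∈ S, 0 ≤ q.1 := by
    rcases h.vertical (by linarith) (by linarith) c1 c2 c3 with h1 | h1
    · have := h1 _ a1
      simp only at this
      linarith
    · exact h1
  have right : ∀ q ∈ S, q.1 ≤ 10 * P := by
    rcases h.vertical (by linarith) (by linarith) d1 d2 d3 with h1 | h1
    · exact h1
    · have := h1 _ a1
      simp only at this
      linarith
  exact fun q hq => ⟨left q hq, right q hq, bot q hq, top q hq⟩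

/-- a set with a top triple and a bottom triple has scale one and no vertical shift -/
theorem fixH {S : Set (ℝ × ℝ)} (h : SP S) {P Q : ℝ} (hP : 0 < P) (hQ : 0 < Q)
    (hs : ∀ p ∈ sides P Q, p ∈ S) {μ a b : ℝ} (hμ : 0 < μ)
    (a1 : ((μ * (3 * P) + a, μ * (10 * Q) + b) : ℝ × ℝ) ∈ S)
    (a2 : ((μ * (4 * P) + a, μ * (10 * Q) + b) : ℝ × ℝ) ∈ S)
    (a3 : ((μ * (5 * P) + a, μ * (10 * Q) + b) : ℝ × ℝ) ∈ S)
    (b1 : ((μ * (3 * P) + a, μ * 0 + b) : ℝ × ℝ) ∈ S)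
    (b2 : ((μ * (4 * P) + a, μ * 0 + b) : ℝ × ℝ) ∈ S)
    (b3 : ((μ * (5 * P) + a, μ * 0 + b) : ℝ × ℝ) ∈ S) : μ = 1 ∧ b = 0 := by
  have hμP : 0 < μ * P := mul_pos hμ hP
  have hμQ : 0 < μ * Q := mul_pos hμ hQ
  have hbox := box h hP hQ hs
  have t1 : ((P, 10 * Q) : ℝ × ℝ) ∈ S := hs _ (by simp [sides])
  have t2 : ((P, 0) : ℝ × ℝ) ∈ S := hs _ (by simp [sides])
  have ea := hbox _ a1
  have eb := hbox _ b1
  simp only at ea eb
  have h1 : μ * (10 * Q) + b = 10 * Q := by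
    rcases h.horizontal (by linarith) (by linarith) a1 a2 a3 with h1 | h1
    · have := h1 _ t1
      simp only at this
      linarith [ea.2.2.2]
    · have h2 := h1 _ t2
      simp only at h2
      have h3 := eb.2.2.1
      linarith
  have h2 : μ * 0 + b = 0 := by
    rcases h.horizontal (by linarith) (by linarith) b1 b2 b3 with h2 | h2
    · have := h2 _ t1
      simp only at this
      linarith
    · have h3 := h2 _ t2
      simp only at h3
      have h4 := eb.2.2.1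
      linarith
  have hb : b = 0 := by linarith
  refine ⟨?_, hb⟩
  rw [hb, add_zero] at h1
  have h3 : (μ - 1) * (10 * Q) = 0 := by linarith
  rcases mul_eq_zero.1 h3 with h4 | h4
  · linarith
  · linarith

/-- a set with a left triple and a right triple has scale one and no horizontal shift -/
theorem fixV {S : Set (ℝ × ℝ)} (h : SP S) {P Q : ℝ} (hP : 0 < P) (hQ : 0 < Q)
    (hs : ∀ p ∈ sides P Q, p ∈ S) {μ a b : ℝ} (hμ : 0 < μ)
    (a1 : ((μ * 0 + a, μ * (3 * Q) + b) : ℝ × ℝ) ∈ S)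
    (a2 : ((μ * 0 + a, μ * (4 * Q) + b) : ℝ × ℝ) ∈ S)
    (a3 : ((μ * 0 + a, μ * (5 * Q) + b) : ℝ × ℝ) ∈ S)
    (b1 : ((μ * (10 * P) + a, μ * (3 * Q) + b) : ℝ × ℝ) ∈ S)
    (b2 : ((μ * (10 * P) + a, μ * (4 * Q) + b) : ℝ × ℝ) ∈ S)
    (b3 : ((μ * (10 * P) + a, μ * (5 * Q) + b) : ℝ × ℝ) ∈ S) : μ = 1 ∧ a = 0 := by
  have hμP : 0 < μ * P := mul_pos hμ hP
  have hμQ : 0 < μ * Q := mul_pos hμ hQ
  have hbox := box h hP hQ hs
  have t1 : ((0, Q) : ℝ × ℝ) ∈ S := hs _ (by simp [sides])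
  have t2 : ((10 * P, Q) : ℝ × ℝ) ∈ S := hs _ (by simp [sides])
  have ea := hbox _ a1
  have eb := hbox _ b1
  simp only at ea eb
  have h1 : μ * 0 + a = 0 := by
    rcases h.vertical (by linarith) (by linarith) a1 a2 a3 with h1 | h1
    · have := h1 _ t2
      simp only at this
      have h3 := eb.2.1
      linarith
    · have h2 := h1 _ t1
      simp only at h2
      linarith [ea.1]
  have ha : a = 0 := by linarith
  have h2 : μ * (10 * P) + a = 10 * P := by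
    rcases h.vertical (by linarith) (by linarith) b1 b2 b3 with h2 | h2
    · have := h2 _ t2
      simp only at this
      linarith [eb.2.1]
    · have h3 := h2 _ t1
      simp only at h3
      linarith
  refine ⟨?_, ha⟩
  rw [ha, add_zero] at h2
  have h3 : (μ - 1) * (10 * P) = 0 := by linarith
  rcases mul_eq_zero.1 h3 with h4 | h4
  · linarith
  · linarith

/-- no point near the upper left corner is dominated -/
theorem tl_dom {S : Set (ℝ × ℝ)} (h : SP S) {P Q : ℝ} (hQ : 0 < Q)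
    (m1 : ((9 * P, 10 * Q) : ℝ × ℝ) ∈ S) (m2 : ((9 * P, 0) : ℝ × ℝ) ∈ S)
    (m3 : ((0, 9 * Q) : ℝ × ℝ) ∈ S) {p q : ℝ × ℝ} (hp : p ∈ S) (hq : q ∈ S)
    (p1 : 0 ≤ p.1) (p2 : p.1 < 9 * P) (p3 : 9 * Q < p.2) (p4 : p.2 ≤ 10 * Q)
    (q1 : q.1 < p.1) (q2 : p.2 < q.2) : False := by
  obtain ⟨a, b, hab, hle⟩ := h p hp
  have e1 := hle _ m1
  have e2 := hle _ m2
  have e3 := hle _ m3
  have e4 := hle _ hq
  simp only at e1 e2 e3
  have ha : a ≤ 0 := by
    by_contra hcon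
    push Not at hcon
    rcases le_or_gt 0 b with hb | hb
    · have h1 : 0 < a * (9 * P - p.1) := mul_pos hcon (by linarith)
      have h2 : 0 ≤ b * (10 * Q - p.2) := mul_nonneg hb (by linarith)
      linarith
    · have h1 : 0 < a * (9 * P - p.1) := mul_pos hcon (by linarith)
      have h2 : 0 < (-b) * p.2 := mul_pos (by linarith) (by linarith)
      linarith
  have hb : 0 ≤ b := by
    by_contra hcon
    push Not at hcon
    have h1 : 0 ≤ (-a) * p.1 := mul_nonneg (by linarith) p1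
    have h2 : 0 < (-b) * (p.2 - 9 * Q) := mul_pos (by linarith) (by linarith)
    linarith
  have h1 : 0 ≤ (-a) * (p.1 - q.1) := mul_nonneg (by linarith) (by linarith)
  have h2 : 0 ≤ b * (q.2 - p.2) := mul_nonneg hb (by linarith)
  rcases hab with h0 | h0
  · have h3 : 0 < (-a) * (p.1 - q.1) :=
      mul_pos (by rcases lt_or_gt_of_ne h0 with h | h <;> linarith) (by linarith)
    linarith
  · have h3 : 0 < b * (q.2 - p.2) :=
      mul_pos (by rcases lt_or_gt_of_ne h0 with h | h <;> linarith) (by linarith)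
    linarith

/-- no point near the upper right corner lies to the left of the midpoint of two others -/
theorem tr_mid {S : Set (ℝ × ℝ)} (h : SP S) {P Q : ℝ}
    (m1 : ((P, 10 * Q) : ℝ × ℝ) ∈ S) (m2 : ((P, 0) : ℝ × ℝ) ∈ S) {u v m : ℝ × ℝ}
    (hu : u ∈ S) (hv : v ∈ S) (hm : m ∈ S) (hy : u.2 + v.2 = 2 * m.2)
    (hx : 2 * m.1 < u.1 + v.1) (p1 : P < m.1) (p2 : 0 < m.2) (p3 : m.2 < 10 * Q) : False := by
  obtain ⟨a, b, hab, hle⟩ := h m hm
  have e1 := hle _ m1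
  have e2 := hle _ m2
  have e3 := hle _ hu
  have e4 := hle _ hv
  simp only at e1 e2
  have ha : a ≤ 0 := by
    by_contra hcon
    push Not at hcon
    have h1 : 0 < a * (u.1 + v.1 - 2 * m.1) := mul_pos hcon (by linarith)
    have h2 : b * (u.2 + v.2) = b * (2 * m.2) := by rw [hy]
    linarith
  have h1 : 0 ≤ (-a) * (m.1 - P) := mul_nonneg (by linarith) (by linarith)
  rcases hab with h0 | h0
  · have h3 : 0 < (-a) * (m.1 - P) :=
      mul_pos (by rcases lt_or_gt_of_ne h0 with h | h <;> linarith) (by linarith)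
    rcases le_or_gt 0 b with hb | hb
    · have h2 : 0 ≤ b * (10 * Q - m.2) := mul_nonneg hb (by linarith)
      linarith
    · have h2 : 0 ≤ (-b) * m.2 := mul_nonneg (by linarith) (by linarith)
      linarith
  · rcases lt_or_gt_of_ne h0 with hb | hb
    · have h2 : 0 < (-b) * m.2 := mul_pos (by linarith) (by linarith)
      linarith
    · have h2 : 0 < b * (10 * Q - m.2) := mul_pos hb (by linarith)
      linarith

/-- the two moving points of a corner cluster have displacements of opposite signs -/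
theorem opp_sign {S : Set (ℝ × ℝ)} (h : SP S) {P Q : ℝ} (hP : 0 < P) (hQ : 0 < Q)
    (hs : ∀ p ∈ sides P Q, p ∈ S) {X w s t : ℝ} (hw : 0 < w)
    (hX9 : 2 * X + 1 < 9 * P) (hwQ : 15 * w < Q) (hs1 : s ≤ X + 1)
    (ht1 : -7 * w ≤ t * w)
    (m1 : ((X + s, 10 * Q - 8 * w) : ℝ × ℝ) ∈ S)
    (m2 : ((X, 10 * Q - 8 * w + t * w) : ℝ × ℝ) ∈ S) :
    ¬ (0 < s ∧ 0 < t) ∧ ¬ (s < 0 ∧ t < 0) := by
  have hbox := box h hP hQ hs
  have t1 : ((9 * P, 10 * Q) : ℝ × ℝ) ∈ S := hs _ (by simp [sides])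
  have t2 : ((9 * P, 0) : ℝ × ℝ) ∈ S := hs _ (by simp [sides])
  have t3 : ((0, 9 * Q) : ℝ × ℝ) ∈ S := hs _ (by simp [sides])
  have e1 := hbox _ m1
  have e2 := hbox _ m2
  simp only at e1 e2
  constructor
  · rintro ⟨h1, h2⟩
    have h3 : 0 < t * w := mul_pos h2 hw
    refine tl_dom h hQ t1 t2 t3 m1 m2 ?_ ?_ ?_ ?_ ?_ ?_ <;> simp only <;> linarith
  · rintro ⟨h1, h2⟩
    have h3 : 0 < (-t) * w := mul_pos (by linarith) hw
    refine tl_dom h hQ t1 t2 t3 m2 m1 ?_ ?_ ?_ ?_ ?_ ?_ <;> simp only <;> linarith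

/-- the zone points of a moving set -/
theorem mem_zA_shift {P Q : ℝ} {J : ℕ} {L : List (ℕ × ℕ × ℕ)} {l : ℕ} {c a : ℝ} {x : ℝ × ℝ}
    (hx : x ∈ zA P Q J L l (c + a)) : ((x.1 - a, x.2) : ℝ × ℝ) ∈ zA P Q J L l c := by
  rw [mem_zA] at hx ⊢
  obtain ⟨k, e, hk, h⟩ := hx
  refine ⟨k, e, hk, ?_⟩
  rcases h with ⟨h1, h2⟩ | ⟨h1, h2⟩ | ⟨h1, h2⟩
  · left
    refine ⟨h1, ?_⟩
    rw [h2, o1, o1]
    ext <;> simp only
    ring
  · right; left
    refine ⟨h1, ?_⟩
    rw [h2, o2, o2]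
    ext <;> simp only
    ring
  · right; right
    refine ⟨h1, ?_⟩
    rw [h2, md, md]
    ext <;> simp only
    ring

theorem rho_rho (P Q : ℝ) (p : ℝ × ℝ) : rho P Q (rho P Q p) = p := by
  simp [rho]

/-- the reflected set -/
def mirror (P Q : ℝ) (S : Set (ℝ × ℝ)) : Set (ℝ × ℝ) := {x | rho P Q x ∈ S}

theorem SP.mirror {P Q : ℝ} {S : Set (ℝ × ℝ)} (h : SP S) : SP (mirror P Q S) := h.refl _ _

theorem sides_mirror {P Q : ℝ} {S : Set (ℝ × ℝ)} (hs : ∀ p ∈ sides P Q, p ∈ S) :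
    ∀ p ∈ sides P Q, p ∈ mirror P Q S := by
  intro p hp
  refine hs _ ?_
  simp only [sides, List.mem_cons, List.not_mem_nil, or_false] at hp ⊢
  rcases hp with rfl | rfl | rfl | rfl | rfl | rfl | rfl | rfl | rfl | rfl | rfl | rfl <;>
    simp only [rho, Prod.mk.injEq] <;> ring_nf <;> simp

/-- the dichotomy for the displacement of a horizontally moving set -/
theorem dichotomy {S : Set (ℝ × ℝ)} (h : SP S) {P Q : ℝ} (hP : 0 < P) (hQ : 0 < Q)
    (hs : ∀ p ∈ sides P Q, p ∈ S) {X w s t : ℝ} (hw : 0 < w)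
    (hX9 : 2 * X + 1 < 9 * P) (hwQ : 15 * w < Q)
    (m1 : ((X + s, 10 * Q - 8 * w) : ℝ × ℝ) ∈ S)
    (m2 : ((X, 10 * Q - 8 * w + t * w) : ℝ × ℝ) ∈ S)
    (m3 : ((X + (1 - s), 10 * Q - 8 * w) : ℝ × ℝ) ∈ mirror P Q S)
    (m4 : ((X, 10 * Q - 8 * w + (1 - t) * w) : ℝ × ℝ) ∈ mirror P Q S) :
    s ≤ 0 ∨ 1 ≤ s := by
  have hbox := box h hP hQ hs
  have hbox' := box (h.mirror (P := P) (Q := Q)) hP hQ (sides_mirror hs)
  have e1 := hbox _ m1
  have e2 := hbox _ m2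
  have e3 := hbox' _ m3
  have e4 := hbox' _ m4
  simp only at e1 e2 e3 e4
  obtain ⟨f1, f2⟩ := opp_sign h hP hQ hs hw hX9 hwQ (by linarith) (by linarith) m1 m2
  obtain ⟨f3, f4⟩ := opp_sign (h.mirror (P := P) (Q := Q)) hP hQ (sides_mirror hs) hw hX9 hwQ
    (by linarith) (by linarith) m3 m4
  by_contra hcon
  push Not at hcon
  have h1 : t ≤ 0 := by
    by_contra h1
    push Not at h1
    exact f1 ⟨hcon.1, h1⟩
  exact f3 ⟨by linarith, by linarith⟩

end Pool.Agent.Helper72.CTS
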