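import Pool.Agent.Helper72.CTS.Sound

/-!
A solution of the instance yields a truth assignment: assembly.
-/

set_option linter.dupNamespace false

namespace Pool.Agent.Helper72.CTS

open Pool.Agent.PolyTime

theorem wt_pos (N l : ℕ) : (0 : ℝ) < (wt N l : ℝ) := by
  have : 0 < wt N l := by
    unfold wt
    positivity
  exact_mod_cast this

theorem wt_succ (N l : ℕ) (h : l + 1 ≤ N) :
    (wt N (l + 1) : ℝ) = 1000 * ((N : ℝ) + 1) * (wt N l : ℝ) := by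
  unfold wt
  rw [min_eq_left h, min_eq_left (by omega)]
  push_cast
  ring

theorem wt_mono (N : ℕ) {l m : ℕ} (h : l ≤ m) : (wt N l : ℝ) ≤ (wt N m : ℝ) := by
  have : wt N l ≤ wt N m := by
    unfold wt
    exact Nat.pow_le_pow_right (by positivity) (by omega)
  exact_mod_cast this

theorem wt_lt (N : ℕ) {l m : ℕ} (h : l < m) (hm : m ≤ N) :
    1000 * ((N : ℝ) + 1) * (wt N l : ℝ) ≤ (wt N m : ℝ) := by
  rw [← wt_succ N l (by omega)]
  exact wt_mono N h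

theorem PP_eq (N J : ℕ) : (PP N J : ℝ) = 50 * ((N : ℝ) + 1) + 1000 * ((J : ℝ) + 1) ^ 2 := by
  unfold PP
  push_cast
  ring

theorem QQ_eq (N J : ℕ) : (QQ N J : ℝ) = 10 * (wt N N : ℝ) + 1000 * ((J : ℝ) + 1) ^ 2 := by
  unfold QQ
  push_cast
  ring

theorem PP_pos (N J : ℕ) : (0 : ℝ) < (PP N J : ℝ) := by
  rw [PP_eq]
  positivity

theorem QQ_pos (N J : ℕ) : (0 : ℝ) < (QQ N J : ℝ) := by
  rw [QQ_eq]
  have := wt_pos N N
  positivity

/-- what is known about the displacement of a set -/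
structure Disp (N J : ℕ) (A B : List (ℕ × ℕ × ℕ)) (S : Set (ℝ × ℝ)) (i : ℕ) (c : ℝ) : Prop where
  dich : c ≤ 0 ∨ 1 ≤ c
  lo : -(50 * (N : ℝ) + 1) ≤ c
  hi : c ≤ 50 * (N : ℝ) + 1
  z0 : i = N → c = 0
  z1 : i = N + 1 → c = 1
  memA : ∀ x ∈ zA (PP N J : ℝ) (QQ N J : ℝ) J A i c, x ∈ S
  memB : ∀ x ∈ zA (PP N J : ℝ) (QQ N J : ℝ) J B i (1 - c), x ∈ mirror (PP N J : ℝ) (QQ N J : ℝ) S

theorem mem_sides_RR {P Q : ℝ} {N J : ℕ} {A B : List (ℕ × ℕ × ℕ)} {p : ℝ × ℝ}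
    (hp : p ∈ sides P Q) : p ∈ RR P Q N J A B := by
  unfold RR
  exact List.mem_append_left _ hp

theorem exists_disp {N J : ℕ} {A B : List (ℕ × ℕ × ℕ)} {S : Set (ℝ × ℝ)} (h : SP S)
    (hR : ∀ p ∈ RR (PP N J : ℝ) (QQ N J : ℝ) N J A B, p ∈ S)
    (hH : ∀ l < N, ∃ μ a b : ℝ, 0 < μ ∧ ∀ p ∈ HH (PP N J : ℝ) (QQ N J : ℝ) N J A B l,
      ((μ * p.1 + a, μ * p.2 + b) : ℝ × ℝ) ∈ S)
    (hV : ∀ l < N, ∃ μ a b : ℝ, 0 < μ ∧ ∀ p ∈ VV (PP N J : ℝ) (QQ N J : ℝ) N l,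
      ((μ * p.1 + a, μ * p.2 + b) : ℝ × ℝ) ∈ S) (i : ℕ) (hi : i ≤ N + 1) :
    ∃ c : ℝ, Disp N J A B S i c := by
  have hN0 : (0 : ℝ) ≤ (N : ℝ) := Nat.cast_nonneg N
  rcases Nat.lt_or_ge i N with hlt | hge
  · obtain ⟨μ, a, b, hμ, hmem⟩ := hH i hlt
    obtain ⟨μ', a', b', hμ', hmem'⟩ := hV i hlt
    have hs : ∀ p ∈ sides (PP N J : ℝ) (QQ N J : ℝ), p ∈ S := fun p hp => hR p (mem_sides_RR hp)
    obtain ⟨h1, h2⟩ := fixH h (PP_pos N J) (QQ_pos N J) hs hμ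
      (hmem (3 * (PP N J : ℝ), 10 * (QQ N J : ℝ)) (by simp [HH]))
      (hmem (4 * (PP N J : ℝ), 10 * (QQ N J : ℝ)) (by simp [HH]))
      (hmem (5 * (PP N J : ℝ), 10 * (QQ N J : ℝ)) (by simp [HH]))
      (hmem (3 * (PP N J : ℝ), 0) (by simp [HH]))
      (hmem (4 * (PP N J : ℝ), 0) (by simp [HH]))
      (hmem (5 * (PP N J : ℝ), 0) (by simp [HH]))
    obtain ⟨h3, h4⟩ := fixV h (PP_pos N J) (QQ_pos N J) hs hμ'
      (hmem' (0, 3 * (QQ N J : ℝ)) (by simp [VV]))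
      (hmem' (0, 4 * (QQ N J : ℝ)) (by simp [VV]))
      (hmem' (0, 5 * (QQ N J : ℝ)) (by simp [VV]))
      (hmem' (10 * (PP N J : ℝ), 3 * (QQ N J : ℝ)) (by simp [VV]))
      (hmem' (10 * (PP N J : ℝ), 4 * (QQ N J : ℝ)) (by simp [VV]))
      (hmem' (10 * (PP N J : ℝ), 5 * (QQ N J : ℝ)) (by simp [VV]))
    subst h1 h2 h3 h4
    have hw := wt_pos N i
    have hwN := wt_lt N hlt le_rfl
    have hil : (i : ℝ) + 1 ≤ (N : ℝ) := by exact_mod_cast hlt
    have hi0 : (0 : ℝ) ≤ (i : ℝ) := Nat.cast_nonneg i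
    have hJ : (0 : ℝ) ≤ ((J : ℝ) + 1) ^ 2 := by positivity
    have m1 : ((50 * ((N : ℝ) - (i : ℝ)) + a, 10 * (QQ N J : ℝ) - 8 * (wt N i : ℝ)) : ℝ × ℝ)
        ∈ S := by
      have := hmem (tp (QQ N J : ℝ) N i 0) (by simp [HH])
      simpa [tp] using this
    have m2 : ((50 * ((N : ℝ) - (i : ℝ)), 10 * (QQ N J : ℝ) - 8 * (wt N i : ℝ) +
        (b' / (wt N i : ℝ)) * (wt N i : ℝ)) : ℝ × ℝ) ∈ S := by
      have := hmem' (tq (QQ N J : ℝ) N i 0) (by simp [VV])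
      rw [div_mul_cancel₀ _ hw.ne']
      simpa [tq] using this
    have m3 : ((50 * ((N : ℝ) - (i : ℝ)) + (1 - a), 10 * (QQ N J : ℝ) - 8 * (wt N i : ℝ)) : ℝ × ℝ)
        ∈ mirror (PP N J : ℝ) (QQ N J : ℝ) S := by
      have := hmem (rho (PP N J : ℝ) (QQ N J : ℝ) (tp (QQ N J : ℝ) N i 1)) (by simp [HH])
      change rho _ _ _ ∈ S
      convert this using 1
      simp only [rho, tp]
      ext <;> simp only <;> ring
    have m4 : ((50 * ((N : ℝ) - (i : ℝ)), 10 * (QQ N J : ℝ) - 8 * (wt N i : ℝ) +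
        (1 - b' / (wt N i : ℝ)) * (wt N i : ℝ)) : ℝ × ℝ)
        ∈ mirror (PP N J : ℝ) (QQ N J : ℝ) S := by
      have := hmem' (rho (PP N J : ℝ) (QQ N J : ℝ) (tq (QQ N J : ℝ) N i 1)) (by simp [VV])
      change rho _ _ _ ∈ S
      have e : (1 - b' / (wt N i : ℝ)) * (wt N i : ℝ) = (wt N i : ℝ) - b' := by
        rw [sub_mul, div_mul_cancel₀ _ hw.ne', one_mul]
      rw [e]
      convert this using 1
      simp only [rho, tq]
      ext <;> simp only <;> ring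
    have hdich := dichotomy h (PP_pos N J) (QQ_pos N J) hs hw
      (X := 50 * ((N : ℝ) - (i : ℝ))) (by rw [PP_eq]; nlinarith)
      (by rw [QQ_eq]; nlinarith) m1 m2 m3 m4
    have hb1 := (box h (PP_pos N J) (QQ_pos N J) hs _ m1).1
    have hb3 := (box (h.mirror (P := (PP N J : ℝ)) (Q := (QQ N J : ℝ))) (PP_pos N J) (QQ_pos N J)
      (sides_mirror hs) _ m3).1
    simp only at hb1 hb3
    refine ⟨a, hdich, by linarith, by linarith, fun h => by omega, fun h => by omega,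
      fun x hx => ?_, fun x hx => ?_⟩
    · have hx' : x ∈ zA (PP N J : ℝ) (QQ N J : ℝ) J A i (0 + a) := by rwa [zero_add]
      have := hmem _ (show ((x.1 - a, x.2) : ℝ × ℝ) ∈ HH (PP N J : ℝ) (QQ N J : ℝ) N J A B i by
        unfold HH
        exact List.mem_append_right _ (List.mem_append_left _ (mem_zA_shift hx')))
      simpa using this
    · have hx' : x ∈ zA (PP N J : ℝ) (QQ N J : ℝ) J B i ((1 - 0) + (-a)) := by
        have e : (1 : ℝ) - 0 + -a = 1 - a := by ring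
        rwa [e]
      have := hmem _ (show rho (PP N J : ℝ) (QQ N J : ℝ) ((x.1 - -a, x.2) : ℝ × ℝ) ∈
          HH (PP N J : ℝ) (QQ N J : ℝ) N J A B i by
        unfold HH
        refine List.mem_append_right _ (List.mem_append_right _ ?_)
        unfold zB
        exact List.mem_map_of_mem (mem_zA_shift hx'))
      change rho _ _ _ ∈ S
      convert this using 1
      simp only [rho]
      ext <;> simp only <;> ring
  · rcases Nat.eq_or_lt_of_le hge with heq | hlt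
    · subst heq
      refine ⟨0, Or.inl le_rfl, by linarith, by linarith, fun _ => rfl, fun h => by omega,
        fun x hx => ?_, fun x hx => ?_⟩
      · apply hR
        unfold RR
        exact List.mem_append_right _ (List.mem_append_left _ hx)
      · change rho _ _ _ ∈ S
        apply hR
        unfold RR
        refine List.mem_append_right _ (List.mem_append_right _ (List.mem_append_right _
          (List.mem_append_left _ ?_)))
        unfold zB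
        exact List.mem_map_of_mem hx
    · have heq : i = N + 1 := by omega
      subst heq
      refine ⟨1, Or.inr le_rfl, by linarith, by linarith, fun h => by omega, fun _ => rfl,
        fun x hx => ?_, fun x hx => ?_⟩
      · apply hR
        unfold RR
        exact List.mem_append_right _ (List.mem_append_right _ (List.mem_append_left _ hx))
      · change rho _ _ _ ∈ S
        apply hR
        unfold RR
        refine List.mem_append_right _ (List.mem_append_right _ (List.mem_append_right _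
          (List.mem_append_right _ ?_)))
        unfold zB
        exact List.mem_map_of_mem hx

/-- a violated zone gives a contradiction -/
theorem zone_contra {N J : ℕ} {L : List (ℕ × ℕ × ℕ)} (hLJ : L.length ≤ J) {S : Set (ℝ × ℝ)}
    (h : SP S) (hs : ∀ p ∈ sides (PP N J : ℝ) (QQ N J : ℝ), p ∈ S) {e : ℕ × ℕ × ℕ} (he : e ∈ L)
    {c1 c2 c3 : ℝ} (h1 : 1 ≤ c1) (h2 : 1 ≤ c2) (h3 : c3 ≤ 0) (hlo : -(50 * (N : ℝ) + 1) ≤ c3)
    (m1 : ∀ x ∈ zA (PP N J : ℝ) (QQ N J : ℝ) J L e.1 c1, x ∈ S)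
    (m2 : ∀ x ∈ zA (PP N J : ℝ) (QQ N J : ℝ) J L e.2.1 c2, x ∈ S)
    (m3 : ∀ x ∈ zA (PP N J : ℝ) (QQ N J : ℝ) J L e.2.2 c3, x ∈ S) : False := by
  obtain ⟨k, hk, hke⟩ := List.getElem_of_mem he
  have hk' : L[k]? = some e := by rw [List.getElem?_eq_getElem hk, hke]
  have n1 := m1 (o1 (PP N J : ℝ) (QQ N J : ℝ) J k c1) (mem_zA.2 ⟨k, e, hk', Or.inl ⟨rfl, rfl⟩⟩)
  have n2 := m2 (o2 (PP N J : ℝ) (QQ N J : ℝ) J k c2)
    (mem_zA.2 ⟨k, e, hk', Or.inr (Or.inl ⟨rfl, rfl⟩)⟩)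
  have n3 := m3 (md (PP N J : ℝ) (QQ N J : ℝ) J k c3)
    (mem_zA.2 ⟨k, e, hk', Or.inr (Or.inr ⟨rfl, rfl⟩)⟩)
  have t1 : (((PP N J : ℝ), 10 * (QQ N J : ℝ)) : ℝ × ℝ) ∈ S := hs _ (by simp [sides])
  have t2 : (((PP N J : ℝ), 0) : ℝ × ℝ) ∈ S := hs _ (by simp [sides])
  have hkJ : (k : ℝ) + 1 ≤ (J : ℝ) := by
    have : k + 1 ≤ J := by omega
    exact_mod_cast this
  have hk0 : (0 : ℝ) ≤ (k : ℝ) := Nat.cast_nonneg k
  have hN0 : (0 : ℝ) ≤ (N : ℝ) := Nat.cast_nonneg N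
  have hw := wt_pos N N
  refine tr_mid h t1 t2 n1 n2 n3 ?_ ?_ ?_ ?_ ?_
  · simp only [o1, o2, md]
    ring
  · simp only [o1, o2, md]
    linarith
  · simp only [md]
    rw [PP_eq]
    nlinarith
  · simp only [md]
    rw [QQ_eq]
    nlinarith
  · simp only [md]
    linarith

theorem sound_core {N J : ℕ} {A B : List (ℕ × ℕ × ℕ)} (hAJ : A.length ≤ J) (hBJ : B.length ≤ J)
    (hA : ∀ e ∈ A, e.1 ≤ N + 1 ∧ e.2.1 ≤ N + 1 ∧ e.2.2 ≤ N + 1)
    (hB : ∀ e ∈ B, e.1 ≤ N + 1 ∧ e.2.1 ≤ N + 1 ∧ e.2.2 ≤ N + 1) {S : Set (ℝ × ℝ)} (h : SP S)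
    (hR : ∀ p ∈ RR (PP N J : ℝ) (QQ N J : ℝ) N J A B, p ∈ S)
    (hH : ∀ l < N, ∃ μ a b : ℝ, 0 < μ ∧ ∀ p ∈ HH (PP N J : ℝ) (QQ N J : ℝ) N J A B l,
      ((μ * p.1 + a, μ * p.2 + b) : ℝ × ℝ) ∈ S)
    (hV : ∀ l < N, ∃ μ a b : ℝ, 0 < μ ∧ ∀ p ∈ VV (PP N J : ℝ) (QQ N J : ℝ) N l,
      ((μ * p.1 + a, μ * p.2 + b) : ℝ × ℝ) ∈ S) :
    ∃ τ : ℕ → Bool, τ N = false ∧ τ (N + 1) = true ∧
      (∀ e ∈ A, ¬ (τ e.1 = true ∧ τ e.2.1 = true ∧ τ e.2.2 = false)) ∧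
      (∀ e ∈ B, ¬ (τ e.1 = false ∧ τ e.2.1 = false ∧ τ e.2.2 = true)) := by
  classical
  have hs : ∀ p ∈ sides (PP N J : ℝ) (QQ N J : ℝ), p ∈ S := fun p hp => hR p (mem_sides_RR hp)
  choose! c hc using exists_disp (A := A) (B := B) h hR hH hV
  have t1 : ∀ i ≤ N + 1, decide (1 ≤ c i) = true → 1 ≤ c i := fun i _ h => by simpa using h
  have t0 : ∀ i ≤ N + 1, decide (1 ≤ c i) = false → c i ≤ 0 := by
    intro i hi h
    rcases (hc i hi).dich with h1 | h1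
    · exact h1
    · simp [h1] at h
  refine ⟨fun i => decide (1 ≤ c i), ?_, ?_, ?_, ?_⟩
  · rw [decide_eq_false_iff_not, (hc N (by omega)).z0 rfl]
    norm_num
  · rw [decide_eq_true_eq, (hc (N + 1) le_rfl).z1 rfl]
  · rintro e he ⟨h1, h2, h3⟩
    obtain ⟨i1, i2, i3⟩ := hA e he
    exact zone_contra hAJ h hs he (t1 _ i1 h1) (t1 _ i2 h2) (t0 _ i3 h3) (hc _ i3).lo
      (hc _ i1).memA (hc _ i2).memA (hc _ i3).memA
  · rintro e he ⟨h1, h2, h3⟩
    obtain ⟨i1, i2, i3⟩ := hB e he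
    have g1 := t0 _ i1 h1
    have g2 := t0 _ i2 h2
    have g3 := t1 _ i3 h3
    have g4 := (hc _ i3).hi
    exact zone_contra hBJ h.mirror (sides_mirror hs) he (c1 := 1 - c e.1) (c2 := 1 - c e.2.1)
      (c3 := 1 - c e.2.2) (by linarith) (by linarith) (by linarith) (by linarith)
      (hc _ i1).memB (hc _ i2).memB (hc _ i3).memB

/-! ### normalisation -/

/-- scalings and translations -/
theorem SP.affine {S : Set (ℝ × ℝ)} (h : SP S) {r : ℝ} (hr : 0 < r) (v : ℝ × ℝ) :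
    SP {x : ℝ × ℝ | ((r * x.1 + v.1, r * x.2 + v.2) : ℝ × ℝ) ∈ S} := by
  intro p hp
  obtain ⟨a, b, hab, hle⟩ := h _ hp
  refine ⟨a, b, hab, fun q hq => ?_⟩
  have h1 := hle _ hq
  simp only at h1
  have h2 : r * (a * q.1 + b * q.2) ≤ r * (a * p.1 + b * p.2) := by linarith
  exact le_of_mul_le_mul_left h2 hr

theorem sound {N : ℕ} {A B : List (ℕ × ℕ × ℕ)}
    (hA : ∀ e ∈ A, e.1 ≤ N + 1 ∧ e.2.1 ≤ N + 1 ∧ e.2.2 ≤ N + 1)
    (hB : ∀ e ∈ B, e.1 ≤ N + 1 ∧ e.2.1 ≤ N + 1 ∧ e.2.2 ≤ N + 1) (h : inst N A B ∈ CTS) :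
    ∃ τ : ℕ → Bool, τ N = false ∧ τ (N + 1) = true ∧
      (∀ e ∈ A, ¬ (τ e.1 = true ∧ τ e.2.1 = true ∧ τ e.2.2 = false)) ∧
      (∀ e ∈ B, ¬ (τ e.1 = false ∧ τ e.2.1 = false ∧ τ e.2.2 = true)) := by
  obtain ⟨lam, t, hlam, hconv⟩ := h
  rw [convexPosition_iff] at hconv
  have h' := hconv.affine (hlam 0) (t 0)
  -- points of the set with index `i`, in normalised coordinates
  have key : ∀ (i : ℕ) (L : List (ℚ × ℚ)) (L' : List (ℝ × ℝ)), (inst N A B)[i]? = some L →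
      L.map cst = L' → ∀ p ∈ L',
      (((lam i / lam 0) * p.1 + ((t i).1 - (t 0).1) / lam 0,
        (lam i / lam 0) * p.2 + ((t i).2 - (t 0).2) / lam 0) : ℝ × ℝ) ∈
        {x : ℝ × ℝ | ((lam 0 * x.1 + (t 0).1, lam 0 * x.2 + (t 0).2) : ℝ × ℝ) ∈
          union (inst N A B) lam t} := by
    intro i L L' hi hL p hp
    rw [← hL, List.mem_map] at hp
    obtain ⟨q, hq, rfl⟩ := hp
    refine ⟨i, L, hi, q, hq, ?_⟩
    have h0 := (hlam 0).ne'
    simp only [cst]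
    ext
    · simp only
      field_simp
      ring
    · simp only
      field_simp
      ring
  refine sound_core (J := A.length + B.length) (by omega) (by omega) hA hB h' ?_ ?_ ?_
  · intro p hp
    have := key 0 _ _ rfl (cst_RR _ _ _ _ _ _) p (by simpa using hp)
    have h0 := (hlam 0).ne'
    simpa [div_self h0] using this
  · intro l hl
    refine ⟨lam (l + 1) / lam 0, ((t (l + 1)).1 - (t 0).1) / lam 0,
      ((t (l + 1)).2 - (t 0).2) / lam 0, div_pos (hlam _) (hlam 0), fun p hp => ?_⟩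
    refine key (l + 1) (HH (PP N (A.length + B.length) : ℚ)
        (QQ N (A.length + B.length) : ℚ) N (A.length + B.length) A B l) _ ?_
        (cst_HH _ _ _ _ _ _ _) p (by simpa using hp)
    unfold inst
    rw [List.getElem?_cons_succ, List.getElem?_append_left (by simpa using hl)]
    simp [hl]
  · intro l hl
    refine ⟨lam (N + l + 1) / lam 0, ((t (N + l + 1)).1 - (t 0).1) / lam 0,
      ((t (N + l + 1)).2 - (t 0).2) / lam 0, div_pos (hlam _) (hlam 0), fun p hp => ?_⟩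
    refine key (N + l + 1) (VV (PP N (A.length + B.length) : ℚ)
        (QQ N (A.length + B.length) : ℚ) N l) _ ?_ (cst_VV _ _ _ _) p (by simpa using hp)
    unfold inst
    rw [List.getElem?_cons_succ, List.getElem?_append_right (by simp)]
    simp [hl]

end Pool.Agent.Helper72.CTS
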