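import Mathlib

/-!
Convex position of planar sets through supporting lines.
-/

namespace Pool.Agent.Helper72.CTS

/-- Every point of the set lies on the boundary of its convex hull. -/
def ConvexPosition (S : Set (ℝ × ℝ)) : Prop := S ⊆ frontier (convexHull ℝ S)

/-- Every point of the set lies on a line supporting the set. -/
def SP (S : Set (ℝ × ℝ)) : Prop :=
  ∀ p ∈ S, ∃ a b : ℝ, (a ≠ 0 ∨ b ≠ 0) ∧ ∀ q ∈ S, a * q.1 + b * q.2 ≤ a * p.1 + b * p.2

/-- the linear functional with coefficients `a` and `b` -/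
noncomputable def lin (a b : ℝ) : (ℝ × ℝ) →L[ℝ] ℝ :=
  a • ContinuousLinearMap.fst ℝ ℝ ℝ + b • ContinuousLinearMap.snd ℝ ℝ ℝ

theorem lin_apply (a b : ℝ) (p : ℝ × ℝ) : lin a b p = a * p.1 + b * p.2 := by
  simp [lin]

theorem eq_lin (f : (ℝ × ℝ) →L[ℝ] ℝ) : f = lin (f (1, 0)) (f (0, 1)) := by
  ext
  · simp [lin]
  · simp [lin]

theorem exists_ne_zero_of_affineSpan_ne_top {S : Set (ℝ × ℝ)} {p : ℝ × ℝ} (hp : p ∈ S)
    (h : affineSpan ℝ S ≠ ⊤) : ∃ f : (ℝ × ℝ) →L[ℝ] ℝ, f ≠ 0 ∧ ∀ q ∈ S, f q = f p := by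
  have hdir : (affineSpan ℝ S).direction ≠ ⊤ := by
    intro hd
    apply h
    exact (AffineSubspace.direction_eq_top_iff_of_nonempty
      ⟨p, subset_affineSpan ℝ S hp⟩).1 hd
  obtain ⟨g, hg0, hg⟩ := Submodule.exists_le_ker_of_lt_top _ (lt_top_iff_ne_top.2 hdir)
  refine ⟨LinearMap.toContinuousLinearMap g, ?_, fun q hq => ?_⟩
  · intro h0
    apply hg0
    ext x
    · have := congrArg (fun F : (ℝ × ℝ) →L[ℝ] ℝ => F (1, 0)) h0
      simpa using this
    · have := congrArg (fun F : (ℝ × ℝ) →L[ℝ] ℝ => F (0, 1)) h0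
      simpa using this
  · have h1 : q - p ∈ (affineSpan ℝ S).direction := by
      rw [← vsub_eq_sub]
      exact AffineSubspace.vsub_mem_direction (subset_affineSpan ℝ S hq)
        (subset_affineSpan ℝ S hp)
    have h2 : g (q - p) = 0 := by
      have := hg h1
      simpa using this
    rw [map_sub, sub_eq_zero] at h2
    simpa using h2

/-- Convex position means that every point lies on a supporting line. -/
theorem convexPosition_iff (S : Set (ℝ × ℝ)) : ConvexPosition S ↔ SP S := by
  constructor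
  · intro h p hp
    have hfr := h hp
    have hconv : Convex ℝ (convexHull ℝ S) := convex_convexHull ℝ S
    have key : ∃ f : (ℝ × ℝ) →L[ℝ] ℝ, f ≠ 0 ∧ ∀ q ∈ S, f q ≤ f p := by
      by_cases hne : (interior (convexHull ℝ S)).Nonempty
      · have hpn : p ∉ interior (convexHull ℝ S) := fun hi => by
          rw [frontier] at hfr
          exact hfr.2 hi
        obtain ⟨f, hf⟩ := geometric_hahn_banach_open_point hconv.interior isOpen_interior hpn
        refine ⟨f, ?_, fun q hq => ?_⟩
        · rintro rfl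
          obtain ⟨x, hx⟩ := hne
          simpa using hf x hx
        · have hq' : q ∈ closure (interior (convexHull ℝ S)) := by
            rw [hconv.closure_interior_eq_closure_of_nonempty_interior hne]
            exact subset_closure (subset_convexHull ℝ S hq)
          have hcl : IsClosed {x | f x ≤ f p} := isClosed_le f.continuous continuous_const
          exact closure_minimal (fun x hx => (hf x hx).le) hcl hq'
      · rw [interior_convexHull_nonempty_iff_affineSpan_eq_top] at hne
        obtain ⟨f, hf0, hf⟩ := exists_ne_zero_of_affineSpan_ne_top hp hne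
        exact ⟨f, hf0, fun q hq => (hf q hq).le⟩
    obtain ⟨f, hf0, hf⟩ := key
    refine ⟨f (1, 0), f (0, 1), ?_, fun q hq => ?_⟩
    · by_contra hcon
      push Not at hcon
      apply hf0
      rw [eq_lin f, hcon.1, hcon.2]
      ext <;> simp [lin]
    · have := hf q hq
      rw [eq_lin f, lin_apply, lin_apply] at this
      exact this
  · intro h p hp
    rw [frontier]
    refine ⟨subset_closure (subset_convexHull ℝ S hp), fun hi => ?_⟩
    obtain ⟨a, b, hab, hle⟩ := h p hp
    have hhull : ∀ q ∈ convexHull ℝ S, a * q.1 + b * q.2 ≤ a * p.1 + b * p.2 := by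
      have hc : Convex ℝ {q : ℝ × ℝ | lin a b q ≤ lin a b p} :=
        convex_halfSpace_le (lin a b).toLinearMap.isLinear _
      intro q hq
      have := convexHull_min (fun x hx => by
        change lin a b x ≤ lin a b p
        rw [lin_apply, lin_apply]
        exact hle x hx) hc hq
      change lin a b q ≤ lin a b p at this
      rw [lin_apply, lin_apply] at this
      exact this
    have hlim : Filter.Tendsto (fun ε : ℝ => p + ε • ((a, b) : ℝ × ℝ)) (nhds 0) (nhds p) := by
      have : Continuous (fun ε : ℝ => p + ε • ((a, b) : ℝ × ℝ)) := by fun_prop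
      simpa using this.tendsto 0
    have hev : ∀ᶠ ε : ℝ in nhds 0, p + ε • ((a, b) : ℝ × ℝ) ∈ convexHull ℝ S :=
      hlim.eventually (mem_interior_iff_mem_nhds.1 hi)
    obtain ⟨ε, hε, hε2⟩ := Metric.eventually_nhds_iff.1 hev
    have h1 := hhull _ (hε2 (y := ε / 2) (by
      rw [Real.dist_eq, sub_zero, abs_of_pos (by linarith)]; linarith))
    simp only [Prod.fst_add, Prod.snd_add, Prod.smul_fst, Prod.smul_snd, smul_eq_mul] at h1
    have h2 : 0 < a * a + b * b := by
      rcases hab with h | h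
      · have := mul_self_pos.2 h
        have := mul_self_nonneg b
        linarith
      · have := mul_self_pos.2 h
        have := mul_self_nonneg a
        linarith
    have h3 : 0 < ε / 2 * (a * a + b * b) := mul_pos (by linarith) h2
    nlinarith [h1, h3]

/-- The reflection swapping the coordinates preserves the supporting-line property. -/
theorem SP.swap {S : Set (ℝ × ℝ)} (h : SP S) : SP (Prod.swap ⁻¹' S) := by
  intro p hp
  obtain ⟨a, b, hab, hle⟩ := h p.swap hp
  refine ⟨b, a, hab.symm, fun q hq => ?_⟩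
  have := hle q.swap hq
  simp only [Prod.fst_swap, Prod.snd_swap] at this
  linarith

/-- point reflections preserve the supporting-line property -/
theorem SP.refl {S : Set (ℝ × ℝ)} (W T : ℝ) (h : SP S) :
    SP {x : ℝ × ℝ | ((W - x.1, T - x.2) : ℝ × ℝ) ∈ S} := by
  intro p hp
  obtain ⟨a, b, hab, hle⟩ := h _ hp
  refine ⟨-a, -b, by simpa using hab, fun q hq => ?_⟩
  have := hle _ hq
  simp only at this
  linarith

theorem SP.mono {S U : Set (ℝ × ℝ)} (h : SP S) (hU : U ⊆ S) : SP U := by
  intro p hp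
  obtain ⟨a, b, hab, hle⟩ := h p (hU hp)
  exact ⟨a, b, hab, fun q hq => hle q (hU hq)⟩

/-- three collinear points on a horizontal line: the line supports the set -/
theorem SP.horizontal {S : Set (ℝ × ℝ)} (h : SP S) {y x1 x2 x3 : ℝ} (h12 : x1 < x2) (h23 : x2 < x3)
    (m1 : ((x1, y) : ℝ × ℝ) ∈ S) (m2 : ((x2, y) : ℝ × ℝ) ∈ S) (m3 : ((x3, y) : ℝ × ℝ) ∈ S) :
    (∀ q ∈ S, q.2 ≤ y) ∨ (∀ q ∈ S, y ≤ q.2) := by
  obtain ⟨a, b, hab, hle⟩ := h _ m2
  have e1 := hle _ m1
  have e3 := hle _ m3
  simp only at e1 e3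
  have ha : a = 0 := by
    by_contra hne
    rcases lt_or_gt_of_ne hne with hlt | hgt
    · nlinarith [mul_pos (neg_pos.2 hlt) (sub_pos.2 h12)]
    · nlinarith [mul_pos hgt (sub_pos.2 h23)]
  subst ha
  have hb : b ≠ 0 := by simpa using hab
  rcases lt_or_gt_of_ne hb with hlt | hgt
  · right
    intro q hq
    have := hle q hq
    simp only [zero_mul, zero_add] at this
    nlinarith
  · left
    intro q hq
    have := hle q hq
    simp only [zero_mul, zero_add] at this
    nlinarith

/-- three collinear points on a vertical line: the line supports the set -/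
theorem SP.vertical {S : Set (ℝ × ℝ)} (h : SP S) {x y1 y2 y3 : ℝ} (h12 : y1 < y2) (h23 : y2 < y3)
    (m1 : ((x, y1) : ℝ × ℝ) ∈ S) (m2 : ((x, y2) : ℝ × ℝ) ∈ S) (m3 : ((x, y3) : ℝ × ℝ) ∈ S) :
    (∀ q ∈ S, q.1 ≤ x) ∨ (∀ q ∈ S, x ≤ q.1) := by
  rcases h.swap.horizontal (y := x) (x1 := y1) (x2 := y2) (x3 := y3) h12 h23 m1 m2 m3 with h1 | h1
  · left
    intro q hq
    exact h1 q.swap (by simpa using hq)
  · right
    intro q hq
    exact h1 q.swap (by simpa using hq)

end Pool.Agent.Helper72.CTS
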